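import Pool.Agent.MP_5c967c_co.H44.C0
import Pool.Agent.MP_5c967c_co.H44.C1
import Pool.Agent.MP_5c967c_co.H44.C2
import Pool.Agent.MP_5c967c_co.H44.C3
import Pool.Agent.MP_5c967c_co.H44.C4
import Pool.Agent.MP_5c967c_co.H44.C5

/-! All cells. -/

namespace Pool.Agent.MP_5c967c_co.H44

theorem cl_all : Cl [] :=
  (.cut 0x6c03706c81075abd7ba2806a5e0d8e997fb876fda8f07fda93e9be337f6aa901be80810cadb9abca80f59adf8b6f7fd4833c72bd7eca7bbd
  (.cut 0x6a338afe801f8099aa6180eba41bb8227fdfba3cab678208be8091468471abbf715f84bb87dc5431802e64f44afa7dab62bd64627ec77a48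
  (.cut 0x9366a7708124bda9a7e28328be8087397c2699cd60247a9369b647c87b26437341d9814e489464a07f036de299937de38be6ae8c80db88af
  (.cut 0xa321911381de8d04802c7fde6c8c630c82035bac576481c15bcd7dde7ae46c98a5cd7ad79291be808006ac52b4c18217ada497907ee38453
  c0
  (.cut 0x9dfb9c26817bb3d3ad7d822dab0cb32d7feea6b5803a84d7bb24934682fabe80969482b6a68875a382ed8bd450c27f2d92cc725081b570cb
  (.cut 0x5eb58b59819a72efadbe82ad99f5be807f40b8c5ab2e8296a221853e815575ff6c2a7fe766667e3f7e657721974080e48373b1a97e487946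
  c1
  c2)
  c3))
  (.cut 0x840a989880897e019c4180b67f1a8e69808484b7926082917a2992fd7db472d6a7c37dac94dcb0ad7f56ac0cbe808256a93cacba804a7843
  (.cut 0xb7fa8c8f7d88a3db762a7cd574f350147b544fb54180808457666a5b7f1a84bb97e681349c3ba1917fa59633798b819293226a567fff8596
  c4
  c5)
  (.cut 0x4a5b70ec812a6f7b910a84e39e75b52383f0be80bc697d9aaefd8b70833d8f6c5c9483a26c3d44337f505b6554637e035d0f79297f527860
  (.cut 0xa846ac5b8005be80b7d580acb1859b5f7cf8a6e585b081e7a004a4207ed6b9e59c93837db7fa8a3a8064a29273b5827c98c678e0801c7042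
  c6
  (.cut 0x85feacab7fe1b5ceaed57fb0be809254811aa3ae6c637dd0708544f37b5843d14eb8800c54cc77d374d87c52a2497f8c8a8eb3ef7e1c8849
  c7
  c8))
  c9)))
  (.cut 0x8b29b3197fdba6b3a5427dc3b46e88287fdfa26467e97aa26ec4569a7b7741804b247e334f166ebd7bcf712f91aa808199c9bb71800a84fd
  c10
  (.cut 0x6c92851e7f7e6b75aa8a7cd09003be807cfdb3a3b6367e73b60a95a581279faa71c08054782160eb7c5e52d2517381dd6c4973177e5581af
  (.cut 0x79189427821f6530958b81047e53a7627e2f94f4b587812c8de5b4f482ad8ac1b0a581fabe80bd6b7dd2b97ab3ab81e6a0789c93830e7002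
  c11
  c12)
  c13)))
  (.cut 0x6da28ed27f818a8eb0967e51abf7b8ab8038be80a1b78500be438937881ba9616c35859d8555521e8054615b4a517e665e1165fb7f1a7abd
  (.cut 0x988fa59d80dcacd0ab3d81c7a10a7eb684448df454db807c6f8941807f1c5736546d7e5454ce7add80695d25a15281438549a0aa7e007c8c
  (.cut 0xb1e6877b7ffb9ec26e5f807075414dd0808d4e504180816e5dd86a7b7cb77b5c98567e85920ea9dc81c096e6885e7f1b9c126e3c80d88155
  c14
  (.cut 0x8b1e8c768002ab50a8187ecfb2c09aba7fedae6289198581aa55772887a49fc060fd85ea77e641807ea978854ffd84ca793c6c53825e7217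
  (.cut 0x94c7a06e8289b594ba177f2dad428c96883d99be5caa8499706b4180801a522a4ba77f8148066d147ed35d359e1281608cdea1777fba76ba
  c15
  c16)
  c17))
  (.cut 0xafdf78fa81c0a0505c77814f76344b507fe5484541807fa167606dc57f629a0b97447ff89d439077807490d16d75831a8917502282c5816a
  c18
  (.cut 0x63f5711e7edb727a7fba7ef48edc9dda7ed8a2aaa76d7fa8a6e78f0b8407991062318589796b4180813e5e3749107ff85b1265ba8161789b
  (.cut 0x92969ed18122b02bbbef81c2baafbaae7f51be808aa9860fac2c7b4285929a8683f283eda16a88bb7f0895e46d3c7efb8c3176d680a17296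
  (.cut 0x58c879eb7ff9784299e083e5a0f6b8b87ee2b7f6b01c7f73a9ca84d7855e934a5d6c863d6be84180803964075de77f9a60507e3a814b7323
  c19
  c20)
  c21)
  c22)))
  (.cut 0xa136a6d280c0b444b13f8210adab885085c3984b577081146b3941807ec651d84e9c7f254aea6ee48100617397ec83308deb9e7c815a7d02
  c23
  c24)))

end Pool.Agent.MP_5c967c_co.H44
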