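import Pool.Agent.MP_5c967c_co.H44.Seq

/-! The finite configuration and its rotation. -/

namespace Pool.Agent.MP_5c967c_co.H44

open Finset

variable {N : ℝ × ℝ → ℝ}

/-- the vertices of a hexagon -/
def hx (a b : ℝ × ℝ) : ℕ → ℝ × ℝ
  | 0 => a
  | 1 => b
  | j + 2 => hx a b (j + 1) - hx a b j

theorem hx_norm (h : IsN N) {a b : ℝ × ℝ} (x : Hx N a b) : ∀ j, N (hx a b j) = 1
  | 0 => x.na
  | 1 => x.nb
  | 2 => x.nc
  | j + 3 => by
    rw [hx, hx, sub_sub_cancel_left, h.neg]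
    exact hx_norm h x j

theorem hx_det (a b : ℝ × ℝ) : ∀ j, det (hx a b j) (hx a b (j + 1)) = det a b
  | 0 => rfl
  | j + 1 => by
    rw [hx, ← hx_det a b j]
    simp [det]; ring

/-- three times the anticonformal part of a hexagon -/
def QQ (a b : ℝ × ℝ) : ℝ × ℝ := (2 * a.1 + a.2 - b.1 - 2 * b.2, -a.1 + a.2 + 2 * b.1 + b.2)

/-- the finite configuration -/
structure Cfg (m : ℕ) (d x : ℕ → ℝ × ℝ) : Prop where
  per : ∀ i, x (i + 2 * m) = x (i + m) - x i
  x0 : x 0 = (1, 0)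
  xm : x m = (0, 1)
  D : ∀ i j k l, i ≤ j → j ≤ k → k ≤ l → l ≤ i + 3 * m → 0 ≤ det (x j - x i) (x l - x k)
  H : ∀ i, 1 ≤ det (x i) (x (i + m))
  sel : ∀ k < m, ∃ ρ : ℝ, 0 ≤ ρ ∧ PP (x k) (x (k + m)) = ρ • d k

theorem neg_of_per {m : ℕ} {x : ℕ → ℝ × ℝ} (per : ∀ i, x (i + 2 * m) = x (i + m) - x i) (i : ℕ) :
    x (i + 3 * m) = -x i := by
  have h := per (i + m)
  rw [show i + m + 2 * m = i + 3 * m by ring, show i + m + m = i + 2 * m by ring, per] at h
  rw [h]; abel

theorem exists_cfg (h : IsN N) (n0 : N (1, 0) = 1) (n1 : N (0, 1) = 1) (n2 : N (-1, 1) = 1)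
    (hmin : ∀ a b, N a = 1 → N b = 1 → N (b - a) = 1 → 0 ≤ det a b → 1 ≤ det a b)
    {m : ℕ} (hm : 0 < m) (d : ℕ → ℝ × ℝ) (d0 : (d 0).2 = 0)
    (hd : ∀ k, 0 ≤ (d k).1 ∧ 0 ≤ (d k).2 ∧ 0 < (d k).1 + (d k).2 ∧ 0 ≤ det (d k) (d (k + 1))) :
    ∃ x, Cfg m d x ∧ (∀ i, N (x i) = 1) ∧ ∀ i j, i ≤ j → j ≤ i + 3 * m → 0 ≤ det (x i) (x j) := by
  obtain ⟨a, b, a0, b0, hab, ho⟩ := exists_seq h n0 n1 n2 d d0 hd
  set x : ℕ → ℝ × ℝ := fun i => hx (a (i % m)) (b (i % m)) (i / m) with hxd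
  have e : ∀ k p, k < m → x (k + m * p) = hx (a k) (b k) p := fun k p hk => by
    simp only [hxd]
    rw [Nat.add_mul_mod_self_left, Nat.add_mul_div_left _ _ hm, Nat.mod_eq_of_lt hk,
      Nat.div_eq_of_lt hk, zero_add]
  have dec : ∀ i, ∃ k p, k < m ∧ i = k + m * p := fun i =>
    ⟨i % m, i / m, Nat.mod_lt _ hm, (Nat.mod_add_div i m).symm⟩
  have per : ∀ i, x (i + 2 * m) = x (i + m) - x i := fun i => by
    obtain ⟨k, p, hk, rfl⟩ := dec i
    rw [show k + m * p + 2 * m = k + m * (p + 2) by ring,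
      show k + m * p + m = k + m * (p + 1) by ring, e _ _ hk, e _ _ hk, e _ _ hk, hx]
  have nx : ∀ i, N (x i) = 1 := fun i => hx_norm h (hab _).1 _
  have base : ∀ i j, i ≤ j → j ≤ 3 * m → 0 ≤ det (x i) (x j) := fun i j hij hj => by
    obtain ⟨k, p, hk, rfl⟩ := dec i
    obtain ⟨l, q, hl, rfl⟩ := dec j
    rw [e _ _ hk, e _ _ hl]
    have hpq : p ≤ q := by
      by_contra hc
      have := Nat.mul_le_mul_left m (show q + 1 ≤ p by omega)
      rw [mul_add] at this
      omega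
    have hq : q ≤ 3 := by
      by_contra hc
      have := Nat.mul_le_mul_left m (show 4 ≤ q by omega)
      omega
    have X := (hab k).1
    have Y := (hab l).1
    obtain ⟨x1, x2⟩ := X.third h n0 n1 n2
    obtain ⟨y1, y2⟩ := Y.third h n0 n1 n2
    have := X.a1; have := X.a2; have := X.b1; have := X.b2
    have := Y.a1; have := Y.a2; have := Y.b1; have := Y.b2
    rcases hpq.eq_or_lt with rfl | hlt
    · have hkl : k ≤ l := by omega
      interval_cases p
      · exact (ho k l hkl).1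
      · exact (ho k l hkl).2
      · exact h.third X.na X.nb Y.na Y.nb (X.det_nonneg X) (ho k l hkl).1 (Y.det_nonneg X)
          (ho k l hkl).2
      · obtain rfl : l = 0 := by omega
        obtain rfl : k = 0 := by omega
        simp [det, mul_comm]
    · interval_cases q
      · omega
      · obtain rfl : p = 0 := by omega
        exact X.det_nonneg Y
      · interval_cases p <;> simp only [hx, det, Prod.fst_sub, Prod.snd_sub]
        · nlinarith [mul_nonneg X.a1 y1, mul_nonneg X.a2 y1, mul_nonneg X.a2 (neg_nonneg.2 y2)]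
        · nlinarith [mul_nonneg X.b2 y1, mul_nonneg X.b2 (neg_nonneg.2 y2),
            mul_nonneg (neg_nonneg.2 X.b1) (neg_nonneg.2 y2)]
      · obtain rfl : l = 0 := by omega
        interval_cases p <;> simp [hx, det, a0, b0] <;> linarith
  have ord : ∀ i j, i ≤ j → j ≤ i + 3 * m → 0 ≤ det (x i) (x j) := fun i => by
    induction i using Nat.strong_induction_on with
    | _ i ih =>
      intro j hij hj
      by_cases h1 : j ≤ 3 * m
      · exact base i j hij h1
      obtain ⟨j, rfl⟩ : ∃ j', j = j' + 3 * m := ⟨j - 3 * m, by omega⟩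
      rw [neg_of_per per]
      by_cases h2 : i ≤ 3 * m
      · have := base j i (by omega) h2
        simp only [det, Prod.fst_neg, Prod.snd_neg] at *
        linarith
      · obtain ⟨i, rfl⟩ : ∃ i', i = i' + 3 * m := ⟨i - 3 * m, by omega⟩
        have := ih i (by omega) j (by omega) (by omega)
        rw [neg_of_per per]
        simp only [det, Prod.fst_neg, Prod.snd_neg] at *
        linarith
  refine ⟨x, ⟨per, ?_, ?_, fun i j k l h1 h2 h3 h4 => h.edge (nx _) (nx _) (nx _) (nx _)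
    (ord _ _ h1 (by omega)) (ord _ _ (by omega) (by omega)) (ord _ _ (by omega) h4)
    (ord _ _ h2 (by omega)) (ord _ _ (by omega) (by omega)) (ord _ _ h3 (by omega)),
    fun i => ?_, fun k hk => ?_⟩, nx, ord⟩
  · simpa [hx, a0] using e 0 0 hm
  · simpa [hx, b0] using e 0 1 hm
  · obtain ⟨k, p, hk, rfl⟩ := dec i
    have X := (hab k).1
    rw [show k + m * p + m = k + m * (p + 1) by ring, e _ _ hk, e _ _ hk, hx_det]
    exact hmin _ _ X.na X.nb X.nc (X.det_nonneg X)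
  · have e0 : x k = a k := by simpa [hx] using e k 0 hk
    have e1 : x (k + m) = b k := by simpa [hx] using e k 1 hk
    obtain ⟨X, h1⟩ := hab k
    obtain ⟨x1, x2⟩ := X.third h n0 n1 n2
    have := X.a1; have := X.a2; have := X.b1; have := X.b2
    have p : 0 ≤ (PP (a k) (b k)).1 + (PP (a k) (b k)).2 := by simp only [PP]; linarith
    have d3 := (hd k).2.2.1
    rw [e0, e1]
    generalize PP (a k) (b k) = P at *
    refine ⟨(P.1 + P.2) / ((d k).1 + (d k).2), div_nonneg p d3.le, ?_⟩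
    simp only [det] at h1
    ext
    · simp only [Prod.smul_fst, smul_eq_mul]
      field_simp
      linarith
    · simp only [Prod.smul_snd, smul_eq_mul]
      field_simp
      linarith

/-- the rotation by one step back -/
def Ri (u : ℝ × ℝ) : ℝ × ℝ := (u.1 + u.2, -u.1)

theorem det_Ri (u w : ℝ × ℝ) : det (Ri u) (Ri w) = det u w := by simp [det, Ri]; ring

theorem Ri_sub (u w : ℝ × ℝ) : Ri u - Ri w = Ri (u - w) := by
  ext <;> simp [Ri] <;> ring

variable {m : ℕ} {d x : ℕ → ℝ × ℝ}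

theorem Cfg.rot (c : Cfg m d x) : Cfg m d fun i => Ri (x (i + m)) := by
  have e : ∀ k, x (k + m + m) = x (k + m) - x k := fun k => by
    rw [← c.per]; congr 1; ring
  refine ⟨fun i => ?_, ?_, ?_, fun i j k l h1 h2 h3 h4 => ?_, fun i => ?_, fun k hk => ?_⟩
  · rw [Ri_sub, ← e]; congr 2; ring
  · simp [c.xm, Ri]
  · have := e 0
    rw [zero_add] at this
    simp [this, c.xm, c.x0, Ri]
  · rw [Ri_sub, Ri_sub, det_Ri]
    exact c.D _ _ _ _ (by omega) (by omega) (by omega) (by omega)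
  · rw [det_Ri]; exact c.H _
  · obtain ⟨ρ, h1, h2⟩ := c.sel k hk
    refine ⟨ρ, h1, ?_⟩
    rw [← h2, e]
    ext <;> simp [PP, Ri] <;> ring

/-- twice the area of the half polygon -/
def SS (m : ℕ) (x : ℕ → ℝ × ℝ) : ℝ := ∑ i ∈ range (3 * m), det (x i) (x (i + 1))

/-- the sum of the anticonformal parts -/
def WW (m : ℕ) (x : ℕ → ℝ × ℝ) : ℝ × ℝ := ∑ k ∈ range m, QQ (x k) (x (k + m))

theorem Cfg.SS_rot (c : Cfg m d x) : SS m (fun i => Ri (x (i + m))) = SS m x := by
  have h1 := sum_range_add (fun i => det (x i) (x (i + 1))) m (3 * m)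
  have h2 := sum_range_add (fun i => det (x i) (x (i + 1))) (3 * m) m
  have h3 : ∑ i ∈ range m, det (x (3 * m + i)) (x (3 * m + i + 1)) =
      ∑ i ∈ range m, det (x i) (x (i + 1)) := sum_congr rfl fun i _ => by
    rw [show 3 * m + i + 1 = i + 1 + 3 * m by ring, add_comm (3 * m), neg_of_per c.per,
      neg_of_per c.per]
    simp [det]
  have h4 : SS m (fun i => Ri (x (i + m))) =
      ∑ i ∈ range (3 * m), det (x (m + i)) (x (m + i + 1)) := sum_congr rfl fun i _ => by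
    rw [det_Ri, add_comm i m, show i + 1 + m = m + i + 1 by ring]
  rw [add_comm, h2, h3] at h1
  rw [h4, SS]
  linarith

theorem Cfg.WW_rot (c : Cfg m d x) :
    WW m (fun i => Ri (x (i + m))) = ((WW m x).2, -(WW m x).1 - (WW m x).2) := by
  have e : ∀ k, x (k + m + m) = x (k + m) - x k := fun k => by
    rw [← c.per]; congr 1; ring
  simp only [WW, Prod.fst_sum, Prod.snd_sum, e]
  ext
  · rw [Prod.fst_sum]
    exact sum_congr rfl fun i _ => by simp [QQ, Ri]; ring
  · rw [Prod.snd_sum, ← sum_neg_distrib, ← sum_sub_distrib]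
    exact sum_congr rfl fun i _ => by simp [QQ, Ri]; ring

theorem Cfg.wlog {γ : ℝ}
    (h : ∀ x, Cfg m d x → 0 ≤ (WW m x).2 → 0 ≤ (WW m x).1 + (WW m x).2 → γ ≤ SS m x)
    (c : Cfg m d x) : γ ≤ SS m x := by
  by_cases h1 : 0 ≤ (WW m x).2 ∧ 0 ≤ (WW m x).1 + (WW m x).2
  · exact h x c h1.1 h1.2
  by_cases h2 : (WW m x).1 ≤ 0 ∧ (WW m x).1 + (WW m x).2 ≤ 0
  · rw [← c.SS_rot]
    refine h _ c.rot ?_ ?_ <;> rw [c.WW_rot] <;> dsimp only <;> linarith [h2.1, h2.2]
  · rw [← c.SS_rot, ← c.rot.SS_rot]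
    rw [not_and_or, not_le, not_le] at h1 h2
    refine h _ c.rot.rot ?_ ?_ <;> rw [c.rot.WW_rot, c.WW_rot] <;> dsimp only <;>
      rcases h1 with h1 | h1 <;> rcases h2 with h2 | h2 <;> linarith

end Pool.Agent.MP_5c967c_co.H44
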