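import Mathlib.Data.Nat.Notation
import Mathlib.Data.Int.Notation

/-! A checker for positivity certificates of quadratic forms (definitions only), written for
evaluation by the kernel.  Linear forms are packed in one integer with digits of 96 bits. -/

namespace Pool.Agent.MP_5c967c_co.H44

/-- force a natural number -/
noncomputable def frc {α : Type} (n : ℕ) (k : ℕ → α) : α :=
  Nat.rec (motive := fun _ => α) (k Nat.zero) (fun m _ => k (Nat.succ m)) n

/-- force an integer -/
noncomputable def frcI {α : Type} (z : ℤ) (k : ℤ → α) : α :=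
  Int.rec (motive := fun _ => α) (fun n => frc n fun m => k (Int.ofNat m))
    (fun n => frc n fun m => k (Int.negSucc m)) z

/-- lazy conjunction -/
noncomputable def band (a b : Bool) : Bool := Bool.rec (motive := fun _ => Bool) false b a

/-- spread `m` digits of width `w` to distance `s` -/
noncomputable def hor (w s m : ℕ) : ℕ → ℕ :=
  Nat.rec (motive := fun _ => ℕ → ℕ) (fun _ => Nat.zero)
    (fun _ ih a => frc (Nat.shiftRight a w) fun a' =>
      Nat.add (Nat.mod a (Nat.shiftLeft 1 w)) (Nat.shiftLeft (ih a') s)) m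

/-- `m` ones at distance `s` -/
noncomputable def ones (s m : ℕ) : ℕ :=
  Nat.rec (motive := fun _ => ℕ) Nat.zero (fun _ ih => Nat.add 1 (Nat.shiftLeft ih s)) m

/-- signed packing -/
noncomputable def pk (w s m a : ℕ) : ℤ :=
  Int.subNatNat (hor w s m a) (Nat.shiftLeft (ones s m) (Nat.pred w))

/-- table entry -/
noncomputable def look (W T j : ℕ) : ℕ :=
  Nat.mod (Nat.shiftRight T (Nat.mul W j)) (Nat.shiftLeft 1 W)

/-- the multiplier of the lowest entry of a group -/
noncomputable def mulr (g : ℕ) : ℕ :=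
  Nat.shiftLeft (Nat.mod (Nat.shiftRight g 14) 67108864) (Nat.mod (Nat.shiftRight g 8) 64)

/-- a nonnegative combination of table entries -/
noncomputable def grp (W T c : ℕ) (f : ℕ) : ℕ → ℕ → ℕ → (ℕ → ℕ → Bool) → Bool :=
  Nat.rec (motive := fun _ => ℕ → ℕ → ℕ → (ℕ → ℕ → Bool) → Bool) (fun _ _ _ _ => false)
    (fun _ ih g u m k => Nat.rec (motive := fun _ => Bool) (k u m) (fun _ _ =>
      frc (mulr g) fun μ =>
      frc (Nat.add u (Nat.mul μ (look W T (Nat.mod (Nat.mod g 256) c)))) fun u' =>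
      frc (Nat.add m μ) fun m' => frc (Nat.shiftRight g 40) fun g' => ih g' u' m' k) g) f

/-- a nonnegative combination of pairs of table entries -/
noncomputable def grp2 (W T c : ℕ) (f : ℕ) : ℕ → ℕ → ℕ → ℕ → (ℕ → ℕ → ℕ → Bool) → Bool :=
  Nat.rec (motive := fun _ => ℕ → ℕ → ℕ → ℕ → (ℕ → ℕ → ℕ → Bool) → Bool)
    (fun _ _ _ _ _ => false)
    (fun _ ih g x y m k => Nat.rec (motive := fun _ => Bool) (k x y m) (fun _ _ =>
      frc (mulr g) fun μ => frc (Nat.mul 2 (Nat.mod (Nat.mod g 256) c)) fun j =>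
      frc (Nat.add x (Nat.mul μ (look W T j))) fun x' =>
      frc (Nat.add y (Nat.mul μ (look W T (Nat.succ j)))) fun y' =>
      frc (Nat.add m μ) fun m' => frc (Nat.shiftRight g 40) fun g' => ih g' x' y' m' k) g) f

/-- subtract the products of linear constraints -/
noncomputable def prods (W O T c : ℕ) (gs : List ℕ) :
    List ℤ → ℤ → ℕ → (ℤ → ℕ → Bool) → Bool :=
  List.rec (motive := fun _ => List ℤ → ℤ → ℕ → (ℤ → ℕ → Bool) → Bool)
    (fun _ Q M k => k Q M)
    (fun g _ ih H Q M k => List.rec (motive := fun _ => Bool) false (fun h H' _ =>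
      Nat.rec (motive := fun _ => Bool) (ih H' Q M k) (fun _ _ =>
        grp W T c 256 g Nat.zero Nat.zero fun u m =>
        frcI (Int.sub Q (Int.mul h (Int.subNatNat u (Nat.mul m O)))) fun Q' =>
        frc (Nat.add M m) fun M' => ih H' Q' M' k) g) H) gs

/-- a family of determinant constraints -/
structure Ent where
  hx : ℤ
  hy : ℤ
  tab : ℕ
  cnt : ℕ
  kap : ℕ

/-- subtract the determinant constraints -/
noncomputable def dets (W O : ℕ) (gs : List ℕ) :
    List Ent → ℤ → ℕ → (ℤ → ℕ → Bool) → Bool :=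
  List.rec (motive := fun _ => List Ent → ℤ → ℕ → (ℤ → ℕ → Bool) → Bool)
    (fun _ Q M k => k Q M)
    (fun g _ ih E Q M k => List.rec (motive := fun _ => Bool) false (fun e E' _ =>
      Nat.rec (motive := fun _ => Bool) (ih E' Q M k) (fun _ _ =>
        Ent.rec (motive := fun _ => Bool) (fun hx hy T c κ =>
        grp2 W T c 256 g Nat.zero Nat.zero Nat.zero fun x y m =>
        frc (Nat.mul m O) fun o =>
        frcI (Int.sub Q (Int.mul hx (Int.subNatNat y o))) fun Q1 =>
        frcI (Int.add Q1 (Int.mul hy (Int.subNatNat x o))) fun Q2 =>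
        frcI (Int.add Q2 (Int.ofNat (Nat.mul m κ))) fun Q3 =>
        frc (Nat.add M m) fun M' => ih E' Q3 M' k) e) g) E) gs

/-- subtract the squares -/
noncomputable def sqs (W : ℕ) (ls : List ℕ) : ℕ → ℤ → (ℕ → ℤ → Bool) → Bool :=
  List.rec (motive := fun _ => ℕ → ℤ → (ℕ → ℤ → Bool) → Bool) (fun m Q k => k m Q)
    (fun a _ ih m Q k => frc (Nat.succ m) fun m' =>
      frcI (pk 32 W m' a) fun h => frcI (pk 32 96 m' a) fun l =>
      frcI (Int.sub Q (Int.mul h l)) fun Q' => ih m' Q' k) ls

/-- bounded universal quantifier -/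
noncomputable def allLt (m : ℕ) (p : ℕ → Bool) : Bool :=
  Nat.rec (motive := fun _ => Bool) true (fun i ih => band (p i) ih) m

/-- diagonal dominance of the digits -/
noncomputable def dom (n W τ A : ℕ) : Bool :=
  allLt n fun i => frc (look W A i) fun r =>
    band (Nat.ble (Nat.add 79228162514264337593543950336 (Nat.mul n τ))
      (Nat.mul 2 (look 96 r i)))
    (allLt i fun j => frc (Nat.add (look 96 r j) (look 96 (look W A j) i)) fun s =>
      band (Nat.ble s (Nat.add 79228162514264337593543950336 τ))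
        (Nat.ble 79228162514264337593543950336 (Nat.add s τ)))

/-- certificate trees -/
inductive Tr where
  | leaf : List ℕ → List ℕ → List ℕ → Tr
  | cut : ℕ → Tr → Tr → Tr

/-- check a leaf -/
noncomputable def leafOk (n W O HI τ : ℕ) (Q : ℤ) (E : List Ent) (T c : ℕ) (H : List ℤ)
    (gs ds ls : List ℕ) : Bool :=
  prods W O T c gs H Q Nat.zero fun Q1 M1 => dets W O ds E Q1 M1 fun Q2 M2 =>
  sqs W ls Nat.zero Q2 fun m Q3 =>
  band (Nat.ble m n) (band (Nat.ble M2 2305843009213693952)
    (frc (Int.toNat (Int.add Q3 (Int.ofNat HI))) fun A => dom n W τ A))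

/-- check a tree -/
noncomputable def treeOk (n W O HI τ : ℕ) (Q : ℤ) (E : List Ent) (t : Tr) :
    ℕ → ℕ → List ℤ → Bool :=
  Tr.rec (motive := fun _ => ℕ → ℕ → List ℤ → Bool)
    (fun gs ds ls T c H => leafOk n W O HI τ Q E T c H gs ds ls)
    (fun a _ _ ih1 ih2 T c H =>
      frc (hor 16 96 n a) fun u => frcI (pk 16 W n a) fun h => frc (Nat.succ c) fun c' =>
      frc (Nat.shiftLeft T W) fun T' =>
      band (frc (Nat.add u T') fun T1 => ih1 T1 c' (h :: H))
        (frc (Nat.add (Nat.sub (Nat.mul 2 O) u) T') fun T2 => frcI (Int.neg h) fun h' =>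
          ih2 T2 c' (h' :: H))) t

/-- tables of a list of linear constraints; a flag negates the form -/
noncomputable def mkCtx (n W O : ℕ) (bs : List (Bool × ℕ)) : (ℕ → ℕ → List ℤ → Bool) → Bool :=
  List.rec (motive := fun _ => (ℕ → ℕ → List ℤ → Bool) → Bool)
    (fun k => k Nat.zero Nat.zero [])
    (fun a _ ih k => ih fun T c H =>
      frc (hor 16 96 n a.2) fun u => frcI (pk 16 W n a.2) fun h => frc (Nat.succ c) fun c' =>
      Bool.rec (motive := fun _ => Bool)
        (frc (Nat.add u (Nat.shiftLeft T W)) fun T1 => k T1 c' (h :: H))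
        (frc (Nat.add (Nat.sub (Nat.mul 2 O) u) (Nat.shiftLeft T W)) fun T2 =>
          frcI (Int.neg h) fun h' => k T2 c' (h' :: H)) a.1) bs

/-- the families of constraints between a vector and all later ones -/
noncomputable def mkE (n W : ℕ) (es : List (ℕ × ℕ)) : (ℕ → ℕ → List Ent → Bool) → Bool :=
  List.rec (motive := fun _ => (ℕ → ℕ → List Ent → Bool) → Bool)
    (fun k => k Nat.zero Nat.zero [])
    (fun a _ ih k => ih fun T c E =>
      frcI (pk 16 W n a.1) fun hx => frcI (pk 16 W n a.2) fun hy =>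
      frc (Nat.add (hor 16 96 n a.1) (Nat.shiftLeft (Nat.add (hor 16 96 n a.2)
        (Nat.shiftLeft T W)) W)) fun T' => frc (Nat.succ c) fun c' =>
      Nat.rec (motive := fun _ => Bool) (k T' c' E)
        (fun _ _ => k T' c' (⟨hx, hy, T, c, Nat.zero⟩ :: E)) c) es

/-- single determinant constraints with a constant -/
noncomputable def mkH (n W κ : ℕ) (hs : List ((ℕ × ℕ) × ℕ × ℕ)) (E : List Ent) :
    (List Ent → Bool) → Bool :=
  List.rec (motive := fun _ => (List Ent → Bool) → Bool) (fun k => k E)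
    (fun a _ ih k => ih fun E' =>
      frcI (pk 16 W n a.1.1) fun hx => frcI (pk 16 W n a.1.2) fun hy =>
      frc (Nat.add (hor 16 96 n a.2.1) (Nat.shiftLeft (hor 16 96 n a.2.2) W)) fun T =>
      k (⟨hx, hy, T, 1, κ⟩ :: E')) hs

/-- a sum of determinants -/
noncomputable def mkF (n W : ℕ) (fs : List ((ℕ × ℕ) × ℕ × ℕ)) : ℤ :=
  List.rec (motive := fun _ => ℤ) (Int.ofNat Nat.zero)
    (fun a _ ih => Int.add ih (Int.sub (Int.mul (pk 16 W n a.1.1) (pk 16 96 n a.2.2))
      (Int.mul (pk 16 W n a.1.2) (pk 16 96 n a.2.1)))) fs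

/-- the whole check: `p` times the sum of determinants is at least `q` -/
noncomputable def run (n τ κ p q : ℕ) (es : List (ℕ × ℕ)) (hs fs : List ((ℕ × ℕ) × ℕ × ℕ))
    (bs : List (Bool × ℕ)) (t : Tr) : Bool :=
  frc (Nat.mul 96 n) fun W => frc (Nat.shiftLeft (ones 96 n) 15) fun O =>
  frc (Nat.mul (ones W n) (Nat.shiftLeft (ones 96 n) 95)) fun HI =>
  frcI (Int.sub (Int.mul (Int.ofNat p) (mkF n W fs)) (Int.ofNat q)) fun Q =>
  mkE n W es fun _ _ E => mkH n W κ hs E fun E' => mkCtx n W O bs fun T c H =>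
  treeOk n W O HI τ Q E' t T c H

end Pool.Agent.MP_5c967c_co.H44
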