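import Pool.Agent.MP_5c967c_co.H44.Pack
import Pool.Agent.MP_5c967c_co.H44.Dat

/-! The configuration satisfies the coded constraints. -/

namespace Pool.Agent.MP_5c967c_co.H44

open Finset

/-- integer directions -/
def di (k : ℕ) : ℕ × ℕ := dz.getD k (0, 4096)

/-- real directions -/
def dr (k : ℕ) : ℝ × ℝ := ((di k).1, (di k).2)

/-- coded point -/
def pt (i : ℕ) : ℕ × ℕ := pts.getD i (0, 0)

/-- a sparse form -/
def sp (o : ℕ) (α β γ δ : ℤ) (t : ℕ) : ℤ :=
  if t = 0 then α else if t = o then β else if t = o + 1 then γ else if t = o + 2 then δ else 0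

theorem val_sp {v : ℕ → ℝ} {n a o : ℕ} {α β γ δ : ℤ} (h0 : v 0 = 1) (h1 : 1 ≤ o)
    (h2 : o + 2 < n) (h : ∀ t < n, cf 16 a t = sp o α β γ δ t) :
    val v n 16 a = α + β * v o + γ * v (o + 1) + δ * v (o + 2) := by
  have e : ∀ t ∈ range n, (cf 16 a t : ℝ) * v t = (if t = 0 then α * v t else 0) +
      (if t = o then β * v t else 0) + (if t = o + 1 then γ * v t else 0) +
      (if t = o + 2 then δ * v t else 0) := fun t ht => by
    rw [h t (mem_range.1 ht), sp]
    split_ifs <;> first | omega | simp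
  rw [val, sum_congr rfl e]
  simp only [sum_add_distrib, sum_ite_eq', mem_range]
  rw [if_pos (by omega), if_pos (by omega), if_pos (by omega), if_pos h2, h0, mul_one]

theorem dr_ok (k : ℕ) : 0 ≤ (dr k).1 ∧ 0 ≤ (dr k).2 ∧ 0 < (dr k).1 + (dr k).2 ∧
    0 ≤ det (dr k) (dr (k + 1)) := by
  have h : ∀ k < 10, 0 < (di k).1 + (di k).2 ∧
      (di k).2 * (di (k + 1)).1 ≤ (di k).1 * (di (k + 1)).2 := by decide +kernel
  have h' : ∀ k, 10 ≤ k → di k = (0, 4096) := fun k hk => List.getD_eq_default _ _ hk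
  refine ⟨Nat.cast_nonneg _, Nat.cast_nonneg _, ?_⟩
  rcases lt_or_ge k 10 with hk | hk
  · simp only [dr, det, sub_nonneg]
    exact_mod_cast h k hk
  · simp [dr, det, h' k hk, h' (k + 1) (by omega)]

theorem pt_cf : (∀ k < 10, 0 < k → ∀ t < 28,
    (cf 16 (pt k).1 t = sp (3 * k - 2) (di k).1 (di k).1 4096 0 t ∧
      cf 16 (pt k).2 t = sp (3 * k - 2) (di k).2 (di k).2 0 4096 t) ∧
    (cf 16 (pt (k + 10)).1 t = sp (3 * k - 2) (-(di k).2) (-(di k).2) 4096 4096 t ∧
      cf 16 (pt (k + 10)).2 t =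
        sp (3 * k - 2) ((di k).1 + (di k).2) ((di k).1 + (di k).2) (-4096) 0 t) ∧
    cf 16 (pt (k + 2 * 10)).1 t =
        sp (3 * k - 2) (-(di k).1 - (di k).2) (-(di k).1 - (di k).2) 0 4096 t ∧
      cf 16 (pt (k + 2 * 10)).2 t = sp (3 * k - 2) (di k).1 (di k).1 (-4096) (-4096) t) ∧
    ∀ t < 28, (cf 16 (pt 0).1 t = sp 1 4096 0 0 0 t ∧ cf 16 (pt 0).2 t = sp 1 0 0 0 0 t) ∧
      (cf 16 (pt 10).1 t = sp 1 0 0 0 0 t ∧ cf 16 (pt 10).2 t = sp 1 4096 0 0 0 t) ∧
      (cf 16 (pt 20).1 t = sp 1 (-4096) 0 0 0 t ∧ cf 16 (pt 20).2 t = sp 1 4096 0 0 0 t) ∧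
      cf 16 (pt 30).1 t = sp 1 (-4096) 0 0 0 t ∧ cf 16 (pt 30).2 t = sp 1 0 0 0 0 t := by
  refine ⟨fun k hk k0 t ht => ⟨?_, ?_, ?_⟩, fun t ht => ⟨?_, ?_, ?_, ?_⟩⟩ <;>
    revert t <;> (try revert k) <;> decide +kernel

variable {x : ℕ → ℝ × ℝ}

/-- the variables -/
noncomputable def vv (x : ℕ → ℝ × ℝ) (ρ : ℕ → ℝ) (t : ℕ) : ℝ :=
  if t = 0 then 1 else if t % 3 = 1 then ρ ((t + 2) / 3) * 4096 / 3 - 1
  else if t % 3 = 2 then (QQ (x ((t + 2) / 3)) (x ((t + 2) / 3 + 10))).1 / 3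
  else (QQ (x ((t + 2) / 3)) (x ((t + 2) / 3 + 10))).2 / 3

theorem vv_eq (ρ : ℕ → ℝ) {k : ℕ} (hk : 0 < k) :
    vv x ρ (3 * k - 2) = ρ k * 4096 / 3 - 1 ∧
    vv x ρ (3 * k - 2 + 1) = (QQ (x k) (x (k + 10))).1 / 3 ∧
    vv x ρ (3 * k - 2 + 2) = (QQ (x k) (x (k + 10))).2 / 3 := by
  unfold vv
  refine ⟨?_, ?_, ?_⟩
  · rw [if_neg (by omega), if_pos (by omega), show (3 * k - 2 + 2) / 3 = k by omega]
  · rw [if_neg (by omega), if_neg (by omega), if_pos (by omega),
      show (3 * k - 2 + 1 + 2) / 3 = k by omega]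
  · rw [if_neg (by omega), if_neg (by omega), if_neg (by omega),
      show (3 * k - 2 + 2 + 2) / 3 = k by omega]

theorem val_pt (c : Cfg 10 dr x) {ρ : ℕ → ℝ}
    (hρ : ∀ k < 10, PP (x k) (x (k + 10)) = ρ k • dr k) : ∀ i ≤ 30,
    val (vv x ρ) 28 16 (pt i).1 = 4096 * (x i).1 ∧
      val (vv x ρ) 28 16 (pt i).2 = 4096 * (x i).2 := by
  have h0 : vv x ρ 0 = 1 := rfl
  have gen : ∀ k < 10, 0 < k →
      (val (vv x ρ) 28 16 (pt k).1 = 4096 * (x k).1 ∧
        val (vv x ρ) 28 16 (pt k).2 = 4096 * (x k).2) ∧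
      (val (vv x ρ) 28 16 (pt (k + 10)).1 = 4096 * (x (k + 10)).1 ∧
        val (vv x ρ) 28 16 (pt (k + 10)).2 = 4096 * (x (k + 10)).2) ∧
      val (vv x ρ) 28 16 (pt (k + 2 * 10)).1 = 4096 * (x (k + 2 * 10)).1 ∧
        val (vv x ρ) 28 16 (pt (k + 2 * 10)).2 = 4096 * (x (k + 2 * 10)).2 := by
    intro k hk k0
    have h := pt_cf.1 k hk k0
    have o1 : 1 ≤ 3 * k - 2 := by omega
    have o2 : 3 * k - 2 + 2 < 28 := by omega
    obtain ⟨v1, v2, v3⟩ := vv_eq (x := x) ρ k0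
    have e1 := congrArg Prod.fst (hρ k hk)
    have e2 := congrArg Prod.snd (hρ k hk)
    rw [val_sp h0 o1 o2 fun t ht => (h t ht).1.1, val_sp h0 o1 o2 fun t ht => (h t ht).1.2,
      val_sp h0 o1 o2 fun t ht => (h t ht).2.1.1, val_sp h0 o1 o2 fun t ht => (h t ht).2.1.2,
      val_sp h0 o1 o2 fun t ht => (h t ht).2.2.1, val_sp h0 o1 o2 fun t ht => (h t ht).2.2.2,
      v1, v2, v3, c.per]
    simp only [PP, dr, Prod.smul_fst, Prod.smul_snd, smul_eq_mul] at e1 e2
    simp only [QQ, Prod.fst_sub, Prod.snd_sub]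
    push_cast
    refine ⟨⟨?_, ?_⟩, ⟨?_, ?_⟩, ?_, ?_⟩
    · linear_combination (-4096 / 3) * e1
    · linear_combination (-4096 / 3) * e2
    · linear_combination (4096 / 3) * e2
    · linear_combination (-4096 / 3) * (e1 + e2)
    · linear_combination (4096 / 3) * (e1 + e2)
    · linear_combination (-4096 / 3) * e1
  have h := pt_cf.2
  have o2 : 1 + 2 < 28 := by omega
  have x2 : x 20 = (-1, 1) := by
    have := c.per 0
    rw [zero_add, zero_add, c.xm, c.x0] at this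
    simpa using this
  have x3 : x 30 = (-1, 0) := by
    have := neg_of_per c.per 0
    rw [zero_add, c.x0] at this
    simpa using this
  intro i hi
  by_cases h1 : i % 10 = 0
  · obtain rfl | rfl | rfl | rfl : i = 0 ∨ i = 10 ∨ i = 20 ∨ i = 30 := by omega
    · rw [val_sp h0 le_rfl o2 fun t ht => (h t ht).1.1,
        val_sp h0 le_rfl o2 fun t ht => (h t ht).1.2, c.x0]
      simp
    · rw [val_sp h0 le_rfl o2 fun t ht => (h t ht).2.1.1,
        val_sp h0 le_rfl o2 fun t ht => (h t ht).2.1.2, c.xm]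
      simp
    · rw [val_sp h0 le_rfl o2 fun t ht => (h t ht).2.2.1.1,
        val_sp h0 le_rfl o2 fun t ht => (h t ht).2.2.1.2, x2]
      simp
    · rw [val_sp h0 le_rfl o2 fun t ht => (h t ht).2.2.2.1,
        val_sp h0 le_rfl o2 fun t ht => (h t ht).2.2.2.2, x3]
      simp
  · obtain ⟨g1, g2, g3⟩ := gen (i % 10) (by omega) (by omega)
    obtain e | e | e : i = i % 10 ∨ i = i % 10 + 10 ∨ i = i % 10 + 2 * 10 := by omega
    · rw [e]; exact g1
    · rw [e]; exact g2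
    · rw [e]; exact g3

theorem val_lin {v : ℕ → ℝ} {n a p q r s : ℕ} {α β : ℤ}
    (h : ∀ t < n, cf 16 a t = α * (cf 16 q t - cf 16 p t) + β * (cf 16 s t - cf 16 r t)) :
    val v n 16 a = α * (val v n 16 q - val v n 16 p) + β * (val v n 16 s - val v n 16 r) := by
  simp only [val, mul_sum, ← sum_sub_distrib, ← sum_add_distrib]
  refine sum_congr rfl fun t ht => ?_
  rw [h t (mem_range.1 ht)]
  push_cast
  ring

/-- first coefficient -/
def ca (b : Bool) (j : ℕ) : ℤ := (if b then -1 else 1) * if j = 0 then 1 else if j = 1 then 0 else -1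

/-- second coefficient -/
def cb (b : Bool) (j : ℕ) : ℤ := (if b then -1 else 1) * if j = 2 then 0 else 1

theorem b2_cf : ∀ y ∈ b2, (y.2.2.2.2 < 3 ∧ y.2.2.1 ≤ y.2.2.2.1 ∧ y.2.2.2.1 ≤ 30 ∧
      if y.2.1 then (y.2.2.2.2 + 1) * 10 ≤ y.2.2.1 else y.2.2.2.1 ≤ y.2.2.2.2 * 10 ∨
        y.2.2.1 = y.2.2.2.2 * 10 ∧ y.2.2.2.1 ≤ (y.2.2.2.2 + 1) * 10) ∧
    ∀ t < 28, cf 16 y.1 t =
      ca y.2.1 y.2.2.2.2 * (cf 16 (pt y.2.2.2.1).1 t - cf 16 (pt y.2.2.1).1 t) +
      cb y.2.1 y.2.2.2.2 * (cf 16 (pt y.2.2.2.1).2 t - cf 16 (pt y.2.2.1).2 t) := by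
  decide +kernel

theorem fin_of (hc : Cl []) (x : ℕ → ℝ × ℝ) (c : Cfg 10 dr x) (w1 : 0 ≤ (WW 10 x).2)
    (w2 : 0 ≤ (WW 10 x).1 + (WW 10 x).2) : 4 * (9 / 10) ≤ SS 10 x := by
  choose! ρ ρ0 hρ using c.sel
  have vp := val_pt c hρ
  have h0 : vv x ρ 0 = 1 := rfl
  have dp : ∀ i ≤ 30, ∀ j ≤ 30,
      dt (vv x ρ) 28 (pt i) (pt j) = 16777216 * det (x i) (x j) := fun i hi j hj => by
    rw [dt, (vp i hi).1, (vp i hi).2, (vp j hj).1, (vp j hj).2, det]
    ring
  have key := hc (vv x ρ) h0 ?_ ?_ ?_ (by simp)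
  · have e : cns = (List.range 30).map fun i => (pt i, pt (i + 1)) := by decide +kernel
    have e2 : (cns.map fun a => dt (vv x ρ) 28 a.1 a.2).sum =
        ∑ i ∈ range 30, dt (vv x ρ) 28 (pt i) (pt (i + 1)) := by
      rw [e, List.map_map]; rfl
    rw [e2, sum_congr rfl fun i hi => dp i (by simp at hi; omega) (i + 1) (by simp at hi; omega),
      ← mul_sum] at key
    unfold SS
    push_cast at key
    linarith
  · have h : ∀ i < 30, ∀ t < 28,
        cf 16 (eds.getD i (0, 0)).1 t = 1 * (cf 16 (pt (i + 1)).1 t - cf 16 (pt i).1 t) +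
          0 * (cf 16 0 t - cf 16 0 t) ∧
        cf 16 (eds.getD i (0, 0)).2 t = 1 * (cf 16 (pt (i + 1)).2 t - cf 16 (pt i).2 t) +
          0 * (cf 16 0 t - cf 16 0 t) := by decide +kernel
    have hl : eds.length = 30 := rfl
    rw [List.pairwise_iff_getElem]
    intro i j hi hj hij
    rw [← List.getD_eq_getElem _ (0, 0), ← List.getD_eq_getElem _ (0, 0), dt,
      val_lin fun t ht => (h i (by omega) t ht).1, val_lin fun t ht => (h i (by omega) t ht).2,
      val_lin fun t ht => (h j (by omega) t ht).1, val_lin fun t ht => (h j (by omega) t ht).2,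
      (vp i (by omega)).1, (vp i (by omega)).2, (vp j (by omega)).1, (vp j (by omega)).2,
      (vp (i + 1) (by omega)).1, (vp (i + 1) (by omega)).2, (vp (j + 1) (by omega)).1,
      (vp (j + 1) (by omega)).2]
    have := c.D i (i + 1) j (j + 1) (by omega) (by omega) (by omega) (by omega)
    simp only [det, Prod.fst_sub, Prod.snd_sub] at this
    push_cast
    linarith
  · have e : hxs = (List.range 9).map fun i => (pt (i + 1), pt (i + 1 + 10)) := by
      decide +kernel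
    rw [e]
    intro a ha
    obtain ⟨i, hi, rfl⟩ := List.mem_map.1 ha
    rw [List.mem_range] at hi
    rw [dp _ (by omega) _ (by omega)]
    have := c.H (i + 1)
    push_cast
    linarith
  · intro a' ha'
    obtain ⟨a, ha, rfl⟩ := List.mem_map.1 ha'
    clear ha'
    change 0 ≤ val (vv x ρ) 28 16 a
    rcases List.mem_append.1 ha with ha | ha
    · have h : ∀ a ∈ b0, (∀ t < 28, cf 16 a t = sp 1 1 0 0 0 t) ∨
          (∀ t < 28, cf 16 a t = if t = 0 ∨ t % 3 ≠ 0 then 0 else 1) ∨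
          ∀ t < 28, cf 16 a t = if t = 0 ∨ t % 3 = 1 then 0 else 1 := by decide +kernel
      have q0 : QQ (x 0) (x 10) = 0 := by simp [QQ, c.x0, c.xm]
      simp only [WW, sum_range_succ, range_zero, sum_empty, zero_add, q0, Prod.fst_add,
        Prod.snd_add, Nat.reduceAdd] at w1 w2
      rcases h a ha with h | h | h
      · rw [val_sp h0 le_rfl (by omega) h]
        simp
      · rw [val, sum_congr rfl fun t ht => by rw [h t (mem_range.1 ht)]]
        simp [sum_range_succ, vv]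
        linarith
      · rw [val, sum_congr rfl fun t ht => by rw [h t (mem_range.1 ht)]]
        simp [sum_range_succ, vv]
        linarith
    rcases List.mem_append.1 ha with ha | ha
    · obtain ⟨⟨a, k⟩, hb, rfl⟩ := List.mem_map.1 ha
      have h : ∀ y ∈ b1, (0 < y.2 ∧ y.2 < 10 ∧
          (di y.2).1 ^ 2 + (di y.2).1 * (di y.2).2 + (di y.2).2 ^ 2 ≤ 4096 ^ 2) ∧
          ∀ t < 28, cf 16 y.1 t = sp (3 * y.2 - 2) 0 1 0 0 t := by decide +kernel
      obtain ⟨⟨k0, hk, h1⟩, h2⟩ := h _ hb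
      dsimp only at k0 hk h1 h2
      rw [val_sp h0 (by omega) (by omega) h2, (vv_eq ρ k0).1]
      have e1 := congrArg Prod.fst (hρ k hk)
      have e2 := congrArg Prod.snd (hρ k hk)
      have h3 := c.H k
      have h4 : ((di k).1 : ℝ) ^ 2 + (di k).1 * (di k).2 + (di k).2 ^ 2 ≤ 4096 ^ 2 := by
        exact_mod_cast h1
      simp only [dr, Prod.smul_fst, Prod.smul_snd, smul_eq_mul] at e1 e2
      have h5 : 9 * det (x k) (x (k + 10)) ≤ (PP (x k) (x (k + 10))).1 ^ 2 +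
          (PP (x k) (x (k + 10))).1 * (PP (x k) (x (k + 10))).2 +
          (PP (x k) (x (k + 10))).2 ^ 2 := by
        generalize x k = a
        generalize x (k + 10) = b
        nlinarith [sq_nonneg ((QQ a b).1 + (QQ a b).2 / 2), sq_nonneg (QQ a b).2,
          show (PP a b).1 ^ 2 + (PP a b).1 * (PP a b).2 + (PP a b).2 ^ 2 = 9 * det a b +
            ((QQ a b).1 ^ 2 + (QQ a b).1 * (QQ a b).2 + (QQ a b).2 ^ 2) by
              simp only [PP, QQ, det]; ring]
      rw [e1, e2] at h5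
      have h6 := mul_le_mul_of_nonneg_left h4 (sq_nonneg (ρ k))
      have h7 : 3 ≤ ρ k * 4096 :=
        (abs_le_of_sq_le_sq' (by nlinarith) (by have := ρ0 k hk; positivity)).2
      push_cast
      linarith
    · obtain ⟨⟨a, b, p, q, j⟩, hb, rfl⟩ := List.mem_map.1 ha
      obtain ⟨⟨h1, h2, h3, h4⟩, h5⟩ := b2_cf _ hb
      dsimp only at h1 h2 h3 h4 h5
      rw [val_lin h5, (vp p (by omega)).1, (vp p (by omega)).2, (vp q h3).1, (vp q h3).2]
      have x2 : x 20 = (-1, 1) := by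
        have := c.per 0
        rw [zero_add, zero_add, c.xm, c.x0] at this
        simpa using this
      have x3 : x 30 = (-1, 0) := by
        have := neg_of_per c.per 0
        rw [zero_add, c.x0] at this
        simpa using this
      have h6 : 0 ≤ (if b then -1 else 1) *
          det (x q - x p) (x ((j + 1) * 10) - x (j * 10)) := by
        cases b
        · simp only [Bool.false_eq_true, if_false, one_mul] at h4 ⊢
          rcases h4 with h4 | ⟨rfl, h4⟩
          · exact c.D _ _ _ _ h2 h4 (by omega) (by omega)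
          · have := c.D _ _ _ _ h2 le_rfl h4 (by omega)
            simp only [det, Prod.fst_sub, Prod.snd_sub] at this ⊢
            linarith
        · simp only [if_true] at h4 ⊢
          have := c.D (j * 10) _ _ _ (by omega) h4 h2 (by omega)
          rw [det_swap] at this
          linarith
      interval_cases j <;> cases b <;>
        simp [ca, cb, det, c.x0, c.xm, x2, x3] at h6 ⊢ <;> linarith

theorem main (hc : Cl []) (C : Set H46.Plane) (h1 : IsCompact C) (h2 : Convex ℝ C)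
    (h3 : (interior C).Nonempty) (c : H46.Plane) (hs : ∀ x ∈ C, c + c - x ∈ C) :
    ENNReal.ofReal (9 / 10) ≤ H46.packingDensity C :=
  symm_bound (m := 10) (by norm_num) dr (by simp [dr, di, dz]) dr_ok _ (by norm_num)
    (fun _ c => c.wlog (fin_of hc)) C h1 h2 h3 c hs

end Pool.Agent.MP_5c967c_co.H44
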