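import Mathlib

/-! Norms on the plane: inscribed affine regular hexagons. -/

namespace Pool.Agent.MP_5c967c_co.H44

open Set

/-- the determinant -/
def det (x y : ℝ × ℝ) : ℝ := x.1 * y.2 - x.2 * y.1

/-- a norm -/
structure IsN (N : ℝ × ℝ → ℝ) : Prop where
  add : ∀ x y, N (x + y) ≤ N x + N y
  smul : ∀ (r : ℝ) x, N (r • x) = |r| * N x
  pos : ∀ x, x ≠ 0 → 0 < N x
  cont : Continuous N

variable {N : ℝ × ℝ → ℝ}

theorem IsN.neg (h : IsN N) (x : ℝ × ℝ) : N (-x) = N x := by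
  simpa using h.smul (-1) x

theorem IsN.sub_comm (h : IsN N) (x y : ℝ × ℝ) : N (x - y) = N (y - x) := by
  rw [← h.neg, neg_sub]

theorem IsN.tri (h : IsN N) {x y z : ℝ × ℝ} (hx : N x = 1) (hy : N y = 1) (hz : N z = 1) :
    |det x z| ≤ |det x y| + |det y z| := by
  have e : det x z • y = det x y • z + det y z • x := by
    ext <;> simp [det] <;> ring
  have h1 := h.add (det x y • z) (det y z • x)
  rwa [← e, h.smul, h.smul, h.smul, hx, hy, hz, mul_one, mul_one, mul_one] at h1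

theorem det_swap (x y : ℝ × ℝ) : det x y = -det y x := by simp [det]; ring

theorem edge_alg {A B C E F G : ℝ} (hA : 0 ≤ A) (hB : 0 ≤ B)
    (hF : 0 ≤ F) (hG : 0 ≤ G) (pl : B * F = A * G + C * E) (h1 : C ≤ A + F) (h2 : C ≤ B + G)
    (h3 : E ≤ A + B) (h4 : E ≤ G + F) : C + E ≤ B + F := by
  by_contra hc
  push Not at hc
  have hAG := mul_nonneg hA hG
  by_cases h5 : B < E ∧ F < E
  · have := mul_le_mul (show E - B ≤ A by linarith) (show E - F ≤ G by linarith)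
      (by linarith) hA
    nlinarith [mul_pos (show 0 < E by linarith) (show 0 < C + E - B - F by linarith)]
  · have hC' : 0 < C := by
      rcases not_and_or.1 h5 with h6 | h6 <;> push Not at h6 <;> linarith
    have h7 := mul_pos hC' (show 0 < C + E - B - F by linarith)
    by_cases h8 : F ≤ C ∧ B ≤ C
    · have := mul_le_mul (show C - F ≤ A by linarith) (show C - B ≤ G by linarith)
        (by linarith) hA
      nlinarith
    · rcases not_and_or.1 h5 with h6 | h6 <;> rcases not_and_or.1 h8 with h9 | h9 <;>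
        push Not at h6 h9
      · linarith
      · nlinarith [mul_nonneg (show 0 ≤ C - F by linarith) (show 0 ≤ B - C by linarith)]
      · nlinarith [mul_nonneg (show 0 ≤ F - C by linarith) (show 0 ≤ C - B by linarith)]
      · linarith

theorem IsN.edge (h : IsN N) {p p' q q' : ℝ × ℝ} (hp : N p = 1) (hp' : N p' = 1) (hq : N q = 1)
    (hq' : N q' = 1) (hA : 0 ≤ det p p') (hB : 0 ≤ det p q) (hC : 0 ≤ det p q')
    (hE : 0 ≤ det p' q) (hF : 0 ≤ det p' q') (hG : 0 ≤ det q q') :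
    0 ≤ det (p' - p) (q' - q) := by
  have h1 := h.tri hp hp' hq'
  have h2 := h.tri hp hq hq'
  have h3 := h.tri hp' hp hq
  have h4 := h.tri hp' hq' hq
  rw [det_swap p' p, abs_neg] at h3
  rw [det_swap q' q, abs_neg] at h4
  simp only [abs_of_nonneg, hA, hB, hC, hE, hF, hG] at h1 h2 h3 h4
  have := edge_alg hA hB hF hG (by simp [det]; ring) h1 h2 h3 (by linarith)
  have e : det (p' - p) (q' - q) = det p q + det p' q' - (det p q' + det p' q) := by
    simp [det]; ring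
  linarith

theorem IsN.third (h : IsN N) {a b a' b' : ℝ × ℝ} (ha : N a = 1) (hb : N b = 1) (ha' : N a' = 1)
    (hb' : N b' = 1) (h0 : 0 ≤ det a b) (h1 : 0 ≤ det a a') (h2 : 0 ≤ det a' b)
    (h3 : 0 ≤ det b b') : 0 ≤ det (b - a) (b' - a') := by
  have h4 := h.tri ha ha' hb
  have h5 := h.tri ha hb hb'
  simp only [abs_of_nonneg, h0, h1, h2, h3] at h4 h5
  have h6 := le_abs_self (det a b')
  have e : det (b - a) (b' - a') = det b b' - det a b' + det a' b + det a a' := by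
    simp [det]; ring
  linarith

theorem IsN.mono (h : IsN N) {a a' b : ℝ × ℝ} (ha : N a = 1) (ha' : N a' = 1) (hb : N b = 1)
    {s t : ℝ} (hs : 0 ≤ s) (ht : 0 ≤ t) (e : a' = s • a + t • b) : N (b - a') ≤ N (b - a) := by
  have h1 : 1 ≤ s + t := by
    have := h.add (s • a) (t • b)
    rwa [← e, h.smul, h.smul, ha, ha', hb, mul_one, mul_one, abs_of_nonneg hs,
      abs_of_nonneg ht] at this
  have h2 : 0 < s + t := by linarith
  have e1 : (s + t) • (b - a') = s • (b - a) + (-(s + t - 1)) • a' := by rw [e]; module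
  have e2 : (s + t) • a = a' + (-t) • (b - a) := by rw [e]; module
  have h3 := h.add (s • (b - a)) ((-(s + t - 1)) • a')
  have h4 := h.add a' ((-t) • (b - a))
  rw [← e1, h.smul, h.smul, h.smul, ha', abs_neg, abs_of_pos h2, abs_of_nonneg hs,
    abs_of_nonneg (by linarith)] at h3
  rw [← e2, h.smul, h.smul, ha, ha', abs_neg, abs_of_pos h2, abs_of_nonneg ht] at h4
  refine le_of_mul_le_mul_left ?_ h2
  linarith

theorem IsN.mono' (h : IsN N) {a a' b : ℝ × ℝ} (ha : N a = 1) (ha' : N a' = 1) (hb : N b = 1)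
    (h1 : 0 ≤ det a a' * det a b) (h2 : 0 ≤ det a' b * det a b) (h3 : det a b ≠ 0) :
    N (b - a') ≤ N (b - a) := by
  have h4 := mul_self_pos.2 h3
  refine h.mono ha ha' hb (div_nonneg h2 h4.le) (div_nonneg h1 h4.le) ?_
  ext
  · simp only [Prod.fst_add, Prod.smul_fst, smul_eq_mul]
    field_simp
    simp [det]; ring
  · simp only [Prod.snd_add, Prod.smul_snd, smul_eq_mul]
    field_simp
    simp [det]; ring

theorem cross {F G : ℝ × ℝ → ℝ} (hF : Continuous F) (hG : Continuous G) {s0 t0 : ℝ}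
    (hs0 : s0 ≤ 1) (ht0 : t0 ≤ 1)
    (mono : ∀ s s' t t', s0 ≤ s → s ≤ s' → s' ≤ 1 → t0 ≤ t' → t' ≤ t → t ≤ 1 →
      F (s', t') ≤ F (s, t))
    (h0 : F (s0, t0) = 1) (h1 : F (1, 1) = 1) (g0 : G (s0, t0) ≤ 0) (g1 : 0 ≤ G (1, 1)) :
    ∃ s t, s0 ≤ s ∧ s ≤ 1 ∧ t0 ≤ t ∧ t ≤ 1 ∧ F (s, t) = 1 ∧ G (s, t) = 0 := by
  set Z : Set (ℝ × ℝ) := (Icc s0 1 ×ˢ Icc t0 1) ∩ {z | F z = 1} with hZ
  have cZ : IsCompact Z :=
    (isCompact_Icc.prod isCompact_Icc).inter_right (isClosed_eq hF continuous_const)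
  have cl : ∀ S : Set (ℝ × ℝ), IsClosed S → IsClosed ((fun z : ℝ × ℝ => z.1 + z.2) '' (Z ∩ S)) :=
    fun S hS => ((cZ.inter_right hS).image (by fun_prop)).isClosed
  have cov : ∀ σ ∈ Icc (s0 + t0) 2, ∃ z ∈ Z, z.1 + z.2 = σ := by
    intro σ ⟨h2, h3⟩
    have hle : max s0 (σ - 1) ≤ min 1 (σ - t0) := by
      simp only [max_le_iff, le_min_iff]
      refine ⟨⟨?_, ?_⟩, ?_, ?_⟩ <;> linarith
    have hc : ContinuousOn (fun s => F (s, σ - s)) (Icc (max s0 (σ - 1)) (min 1 (σ - t0))) := by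
      fun_prop
    have hm : (1 : ℝ) ∈ Icc (F (min 1 (σ - t0), σ - min 1 (σ - t0)))
        (F (max s0 (σ - 1), σ - max s0 (σ - 1))) := by
      constructor
      · rcases min_cases 1 (σ - t0) with ⟨e, h7⟩ | ⟨e, h7⟩ <;> rw [e]
        · exact (mono _ _ _ _ hs0 le_rfl le_rfl (by linarith) (by linarith) le_rfl).trans h1.le
        · rw [← h0]
          exact mono _ _ _ _ le_rfl (by linarith) h7.le (by linarith) (by linarith) ht0
      · rcases max_cases s0 (σ - 1) with ⟨e, h7⟩ | ⟨e, h7⟩ <;> rw [e]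
        · rw [← h0]
          exact mono _ _ _ _ le_rfl le_rfl hs0 le_rfl (by linarith) (by linarith)
        · exact h1.ge.trans
            (mono _ _ _ _ h7.le (by linarith) le_rfl ht0 (by linarith) (by linarith))
    obtain ⟨s, ⟨h4, h5⟩, h6⟩ := intermediate_value_Icc' hle hc hm
    simp only [max_le_iff, le_min_iff] at h4 h5
    exact ⟨(s, σ - s), ⟨⟨⟨h4.1, h5.1⟩, by simp only; linarith, by simp only; linarith⟩, h6⟩,
      by simp⟩
  obtain ⟨σ, -, ⟨⟨s1, t1⟩, ⟨⟨⟨⟨a1, a2⟩, a3, a4⟩, a5⟩, a6⟩, e1⟩,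
      ⟨s2, t2⟩, ⟨⟨⟨⟨b1, b2⟩, b3, b4⟩, b5⟩, b6⟩, e2⟩ :=
    isPreconnected_closed_iff.1 (isPreconnected_Icc (a := s0 + t0) (b := 2)) _ _
      (cl {z | G z ≤ 0} (isClosed_le hG continuous_const))
      (cl {z | 0 ≤ G z} (isClosed_le continuous_const hG))
      (fun σ hσ => by
        obtain ⟨z, hz, e⟩ := cov σ hσ
        rcases le_total (G z) 0 with h | h
        · exact Or.inl ⟨z, ⟨hz, h⟩, e⟩
        · exact Or.inr ⟨z, ⟨hz, h⟩, e⟩)
      ⟨s0 + t0, ⟨le_rfl, by linarith⟩, (s0, t0), ⟨⟨⟨⟨le_rfl, hs0⟩, le_rfl, ht0⟩, h0⟩, g0⟩, rfl⟩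
      ⟨2, ⟨by linarith, le_rfl⟩, (1, 1), ⟨⟨⟨⟨hs0, le_rfl⟩, ht0, le_rfl⟩, h1⟩, g1⟩, by norm_num⟩
  simp only [mem_ofPred_eq] at *
  obtain rfl : t1 = σ - s1 := by linarith
  obtain rfl : t2 = σ - s2 := by linarith
  have hc : ContinuousOn (fun s => G (s, σ - s)) (uIcc s1 s2) := by fun_prop
  obtain ⟨s, hs, h6⟩ := intermediate_value_uIcc hc (mem_uIcc.2 (Or.inl ⟨a6, b6⟩))
  rcases mem_uIcc.1 hs with ⟨c1, c2⟩ | ⟨c1, c2⟩
  · refine ⟨s, σ - s, by linarith, by linarith, by linarith, by linarith, le_antisymm ?_ ?_, h6⟩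
    · rw [← a5]
      exact mono _ _ _ _ a1 c1 (by linarith) (by linarith) (by linarith) a4
    · rw [← b5]
      exact mono _ _ _ _ (by linarith) c2 b2 b3 (by linarith) (by linarith)
  · refine ⟨s, σ - s, by linarith, by linarith, by linarith, by linarith, le_antisymm ?_ ?_, h6⟩
    · rw [← b5]
      exact mono _ _ _ _ b1 c1 (by linarith) (by linarith) (by linarith) b4
    · rw [← a5]
      exact mono _ _ _ _ (by linarith) c2 a2 a3 (by linarith) (by linarith)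

end Pool.Agent.MP_5c967c_co.H44
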