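import Pool.Agent.MP_5c967c_co.H44.Cfg
import Pool.Agent.MP_5c967c_co.H46.DL

/-! From the finite inequality to the packing density. -/

namespace Pool.Agent.MP_5c967c_co.H44

open Set MeasureTheory Metric H46

variable {N : ℝ × ℝ → ℝ}

theorem exists_min (h : IsN N) {R : ℝ} (hR : ∀ x, N x = 1 → ‖x‖ ≤ R) :
    ∃ a b, N a = 1 ∧ N b = 1 ∧ N (b - a) = 1 ∧ 0 < det a b ∧
      ∀ a' b', N a' = 1 → N b' = 1 → N (b' - a') = 1 → 0 ≤ det a' b' → det a b ≤ det a' b' := by
  have hc := h.cont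
  have cd : Continuous fun y : (ℝ × ℝ) × ℝ × ℝ => det y.1 y.2 := by unfold det; fun_prop
  have cT : IsCompact {y : (ℝ × ℝ) × ℝ × ℝ |
      N y.1 = 1 ∧ N y.2 = 1 ∧ N (y.2 - y.1) = 1 ∧ 0 ≤ det y.1 y.2} := by
    refine (isCompact_closedBall 0 R).of_isClosed_subset
      ((isClosed_eq (by fun_prop) continuous_const).inter
        ((isClosed_eq (by fun_prop) continuous_const).inter
          ((isClosed_eq (by fun_prop) continuous_const).inter
            (isClosed_le continuous_const cd)))) fun y hy => ?_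
    rw [mem_closedBall_zero_iff, Prod.norm_def]
    exact max_le (hR _ hy.1) (hR _ hy.2.1)
  have ne : ∀ t : ℝ, ((1 - 2 * t, t * (1 - t)) : ℝ × ℝ) ≠ 0 := fun t e => by
    have h1 := congrArg Prod.fst e
    have h2 := congrArg Prod.snd e
    simp only [Prod.fst_zero, Prod.snd_zero] at h1 h2
    nlinarith
  have n1 : ((1, 0) : ℝ × ℝ) ≠ 0 := by simp
  have cu : Continuous fun t : ℝ => (1 - 2 * t, t * (1 - t)) := by fun_prop
  have cf : Continuous fun t : ℝ => N (un N (1 - 2 * t, t * (1 - t)) - un N (1, 0)) :=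
    hc.comp ((((hc.comp cu).inv₀ fun t => (h.pos _ (ne t)).ne').smul cu).sub continuous_const)
  obtain ⟨t, ⟨t0, t1⟩, ht⟩ := intermediate_value_Icc zero_le_one cf.continuousOn (show (1 : ℝ) ∈ _ by
    have e0 : N (un N (1 - 2 * 0, 0 * (1 - 0)) - un N (1, 0)) = 0 := by
      simpa using h.smul 0 0
    have e1 : un N (1 - 2 * 1, 1 * (1 - 1)) - un N (1, 0) = (-2 : ℝ) • un N (1, 0) := by
      have : ((1 - 2 * 1, 1 * (1 - 1)) : ℝ × ℝ) = -(1, 0) := by norm_num
      rw [this, un, un, h.neg]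
      module
    rw [mem_Icc, e0, e1, h.smul, h.un_one n1]
    norm_num)
  obtain ⟨⟨a, b⟩, ⟨h1, h2, h3, h4⟩, h5⟩ := cT.exists_isMinOn
    ⟨(un N (1, 0), un N (1 - 2 * t, t * (1 - t))), h.un_one n1, h.un_one (ne t), ht,
      h.det_un_nonneg n1 (ne t) (by simpa [det] using mul_nonneg t0 (sub_nonneg.2 t1))⟩
    cd.continuousOn
  refine ⟨a, b, h1, h2, h3, h4.lt_of_ne fun e => ?_, fun a' b' c1 c2 c3 c4 =>
    h5 (a := (a', b')) ⟨c1, c2, c3, c4⟩⟩
  dsimp only at *
  have a0 : a ≠ 0 := by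
    rintro rfl
    have := h.smul 0 0
    simp [h1] at this
  have p : 0 < a.1 * a.1 + a.2 * a.2 := by
    by_contra hc
    exact a0 (Prod.ext (by simp only [Prod.fst_zero]; nlinarith [mul_self_nonneg a.2])
      (by simp only [Prod.snd_zero]; nlinarith [mul_self_nonneg a.1]))
  obtain ⟨r, rfl⟩ : ∃ r : ℝ, b = r • a := by
    refine ⟨(a.1 * b.1 + a.2 * b.2) / (a.1 * a.1 + a.2 * a.2), ?_⟩
    simp only [det] at e
    ext
    · rw [Prod.smul_fst, smul_eq_mul, div_mul_eq_mul_div, eq_div_iff p.ne']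
      linear_combination a.2 * e
    · rw [Prod.smul_snd, smul_eq_mul, div_mul_eq_mul_div, eq_div_iff p.ne']
      linear_combination (-a.1) * e
  rw [show r • a - a = (r - 1) • a by module] at h3
  rw [h.smul, h1, mul_one] at h2 h3
  rcases abs_eq (zero_le_one' ℝ) |>.1 h2 with e1 | e1 <;> rw [e1] at h3 <;> norm_num at h3

theorem lat_norm (h : IsN N) (n0 : N (1, 0) = 1) (n1 : N (0, 1) = 1) (n2 : N (-1, 1) = 1)
    (p q : ℤ) (hlt : N (p, q) < 1) : p = 0 ∧ q = 0 := by
  by_contra hc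
  have ne : ((p, q) : ℝ × ℝ) ≠ 0 := fun e => hc ⟨by simpa using congrArg Prod.fst e,
    by simpa using congrArg Prod.snd e⟩
  have r0 := h.pos _ ne
  have nu := h.un_one ne
  have key : ∀ x y : ℝ × ℝ, N x = 1 → N y = 1 → |det x y| = 1 → ∀ s t : ℤ,
      |det x (p, q)| = |(s : ℝ)| → |det y (p, q)| = |(t : ℝ)| → |s| ≤ |t| := by
    intro x y hx hy e s t hs ht
    have h1 := h.tri hx hy nu
    have e1 : ∀ z, det z (un N (p, q)) = (N (p, q))⁻¹ * det z (p, q) := fun z => by
      simp [un, det]; ring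
    rw [e, e1, e1, abs_mul, abs_mul, hs, ht, abs_of_pos (inv_pos.2 r0)] at h1
    have h2 := mul_le_mul_of_nonneg_left h1 r0.le
    rw [mul_add, mul_inv_cancel_left₀ r0.ne', mul_inv_cancel_left₀ r0.ne'] at h2
    have h3 : |(s : ℝ)| < |(t : ℝ)| + 1 := by linarith
    have h4 : |s| < |t| + 1 := by exact_mod_cast h3
    omega
  have e0 : |det (1, 0) ((p, q) : ℝ × ℝ)| = |((q : ℤ) : ℝ)| := by simp [det]
  have e1 : |det (0, 1) ((p, q) : ℝ × ℝ)| = |((p : ℤ) : ℝ)| := by simp [det]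
  have e2 : |det (-1, 1) ((p, q) : ℝ × ℝ)| = |((p + q : ℤ) : ℝ)| := by
    rw [← abs_neg]
    simp [det]
  have k1 := key _ _ n0 n1 (by simp [det]) _ _ e0 e1
  have k2 := key _ _ n1 n2 (by simp [det]) _ _ e1 e2
  have k3 := key _ _ n2 n0 (by simp [det]) _ _ e2 e0
  apply hc
  rcases abs_cases p with h1 | h1 <;> rcases abs_cases q with h2 | h2 <;>
    rcases abs_cases (p + q) with h3 | h3 <;> omega

theorem fan : ∀ (M : ℕ) (K : Set Plane) (y : ℕ → Plane), Convex ℝ K → 0 ∈ K →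
    (∀ i ≤ M, y i ∈ K) → (∀ i j, i ≤ j → j ≤ M → 0 ≤ tri 0 (y i) (y j)) →
    ENNReal.ofReal (∑ i ∈ Finset.range M, tri 0 (y i) (y (i + 1)) / 2) ≤
      volume (K ∩ {x | 0 ≤ tri 0 (y 0) x})
  | 0, _, _, _, _, _, _ => by simp
  | M + 1, K, y, hK, h0, hy, ht => by
    have hK' := hK.inter (convex_half 0 (y 0))
    have h0' : (0 : Plane) ∈ K ∩ {x | 0 ≤ tri 0 (y 0) x} := ⟨h0, by simp [tri]⟩
    have hy' : ∀ i ≤ M + 1, y i ∈ K ∩ {x | 0 ≤ tri 0 (y 0) x} := fun i hi =>
      ⟨hy i hi, ht 0 i (Nat.zero_le _) hi⟩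
    have h1 := fan M _ (fun i => y (i + 1)) hK' h0' (fun i hi => hy' _ (by omega))
      fun i j hij hj => ht _ _ (by omega) (by omega)
    rw [Finset.sum_range_succ', add_comm]
    exact ENNReal.ofReal_add_le.trans ((add_le_add_right h1 _).trans
      (cut _ hK' 0 (y 0) (y 1) h0' (hy' 0 (by omega)) (hy' 1 (by omega))
        (ht 0 1 (by omega) (by omega))))

theorem fan2 (M : ℕ) (K : Set Plane) (y : ℕ → Plane) (hK : Convex ℝ K) (hc : IsClosed K)
    (hs : ∀ x ∈ K, -x ∈ K) (h0 : 0 ∈ K) (y0 : y 0 ≠ 0) (hy : ∀ i ≤ M, y i ∈ K)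
    (ht : ∀ i j, i ≤ j → j ≤ M → 0 ≤ tri 0 (y i) (y j)) :
    ENNReal.ofReal (∑ i ∈ Finset.range M, tri 0 (y i) (y (i + 1))) ≤ volume K := by
  have e : ∀ u w : Plane, tri 0 (-u) (-w) = tri 0 u w := fun u w => by simp [tri]
  have h1 := fan M K y hK h0 hy ht
  have h2 := fan M K (fun i => -y i) hK h0 (fun i hi => hs _ (hy i hi))
    fun i j hij hj => by rw [e]; exact ht i j hij hj
  simp only [e] at h2
  have hm : MeasurableSet (K ∩ {x | 0 ≤ tri 0 (-y 0) x}) :=
    (hc.inter (isClosed_le continuous_const (by unfold tri; fun_prop))).measurableSet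
  have h3 := measure_union_add_inter (μ := volume) (K ∩ {x | 0 ≤ tri 0 (y 0) x}) hm
  let f : Plane →ₗ[ℝ] ℝ :=
    { toFun := fun x => tri 0 (y 0) x
      map_add' := fun u w => by simp [tri]; ring
      map_smul' := fun r u => by simp [tri]; ring }
  have h4 : volume (K ∩ {x | 0 ≤ tri 0 (y 0) x} ∩ (K ∩ {x | 0 ≤ tri 0 (-y 0) x})) = 0 := by
    refine measure_mono_null (t := (LinearMap.ker f : Set Plane)) (fun x hx => ?_)
      (Measure.addHaar_submodule _ _ fun hf => y0 ?_)
    · have a1 : 0 ≤ tri 0 (y 0) x := hx.1.2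
      have a2 : 0 ≤ tri 0 (-y 0) x := hx.2.2
      change tri 0 (y 0) x = 0
      simp [tri] at *
      linarith
    · have a1 : f !₂[0, 1] = 0 := by rw [← LinearMap.mem_ker, hf]; trivial
      have a2 : f !₂[1, 0] = 0 := by rw [← LinearMap.mem_ker, hf]; trivial
      ext i
      fin_cases i
      · simpa [f, tri] using a1
      · simpa [f, tri] using a2
  rw [h4, add_zero] at h3
  rw [← Finset.sum_div] at h1 h2
  rw [← add_halves (∑ i ∈ Finset.range M, _)]
  exact ENNReal.ofReal_add_le.trans ((add_le_add h1 h2).trans (h3.ge.trans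
    (measure_mono (union_subset inter_subset_left inter_subset_left))))

theorem packing (C : Set Plane) (hne : (interior C).Nonempty) (R : ℝ) (hR : C ⊆ ball 0 R)
    (a b : Plane) (hD : 0 < det2 a b)
    (hl : ∀ x ∈ interior C, ∀ p q : ℤ, x + (2 * p : ℝ) • a + (2 * q : ℝ) • b ∈ interior C →
      p = 0 ∧ q = 0) (ρ : ℝ) (hρ : 0 ≤ ρ) (hv : ENNReal.ofReal (ρ * (4 * det2 a b)) ≤ volume C) :
    ENNReal.ofReal ρ ≤ packingDensity C := by
  let w : Bool × ℤ × ℤ → ℤ := fun i => 2 * i.2.2 + if i.1 then 0 else 1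
  let iso : Bool × ℤ × ℤ → Plane ≃ᵢ Plane := fun i =>
    IsometryEquiv.addLeft ((2 * i.2.1 : ℝ) • a + (2 * w i : ℝ) • b)
  let F : Bool × ℤ × ℤ → Set Plane := fun i => iso i '' C
  have hdis : ∀ i j, i ≠ j → Disjoint (interior (F i)) (interior (F j)) := by
    intro i j hij
    simp only [F, interior_iso]
    rw [Set.disjoint_left]
    rintro _ ⟨x, hx, rfl⟩ ⟨x', hx', he⟩
    simp only [iso, IsometryEquiv.addLeft_apply] at he
    have e : x + (2 * (i.2.1 - j.2.1 : ℤ) : ℝ) • a + (2 * (w i - w j : ℤ) : ℝ) • b = x' := by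
      rw [eq_sub_of_add_eq' he]
      push_cast
      module
    obtain ⟨h1, h2⟩ := hl x hx _ _ (e ▸ hx')
    obtain ⟨s, p, q⟩ := i
    obtain ⟨s', p', q'⟩ := j
    apply hij
    cases s <;> cases s' <;> simp [w] at h1 h2 ⊢ <;> omega
  have inj : Function.Injective F := by
    intro i j hij
    by_contra hne'
    have := hdis i j hne'
    rw [← hij, disjoint_self] at this
    have h2 : (interior (F i)).Nonempty := by
      simp only [F, interior_iso]; exact hne.image _
    exact h2.ne_empty this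
  have hpack : IsPacking C (range F) := by
    refine ⟨?_, ?_⟩
    · rintro _ ⟨i, rfl⟩; exact ⟨iso i, rfl⟩
    · rintro _ ⟨i, rfl⟩ _ ⟨j, rfl⟩ hij
      exact hdis i j (fun h => hij (h ▸ rfl))
  have ed : det2 ((2 : ℝ) • a) ((4 : ℝ) • b) = 8 * det2 a b := by simp [det2]; ring
  have hd := density_ge C ((fun x => (2 : ℝ) • b + x) '' C) ((2 : ℝ) • a) ((4 : ℝ) • b)
    (ρ * (4 * det2 a b)) ρ (R + ‖(2 : ℝ) • b‖) (by rw [ed]; positivity)
    (hR.trans (ball_subset_ball (by linarith [norm_nonneg ((2 : ℝ) • b)])))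
    (by
      rintro _ ⟨x, hx, rfl⟩
      have := hR hx
      rw [mem_ball_zero_iff] at this ⊢
      linarith [norm_add_le ((2 : ℝ) • b) x])
    hv (by rw [vol_shift]; exact hv) (by positivity) hρ
    (by rw [ed, abs_of_pos (by positivity)]; linarith) F
    (fun z => by
      simp only [F, iso, w, lat]
      congr 1
      ext1 x
      simp only [if_true, IsometryEquiv.addLeft_apply]
      push_cast
      module)
    (fun z => by
      simp only [F, iso, w, lat, image_image]
      congr 1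
      ext1 x
      simp only [Bool.false_eq_true, if_false, IsometryEquiv.addLeft_apply]
      push_cast
      module) inj
  exact hd.trans (le_iSup₂_of_le (range F) hpack le_rfl)

theorem symm_bound {m : ℕ} (hm : 0 < m) (d : ℕ → ℝ × ℝ) (d0 : (d 0).2 = 0)
    (hd : ∀ k, 0 ≤ (d k).1 ∧ 0 ≤ (d k).2 ∧ 0 < (d k).1 + (d k).2 ∧ 0 ≤ det (d k) (d (k + 1)))
    (ρ : ℝ) (hρ : 0 ≤ ρ) (fin : ∀ x, Cfg m d x → 4 * ρ ≤ SS m x)
    (C : Set Plane) (hc : IsCompact C) (hv : Convex ℝ C) (hne : (interior C).Nonempty)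
    (c : Plane) (hs : ∀ x ∈ C, c + c - x ∈ C) : ENNReal.ofReal ρ ≤ packingDensity C := by
  set K : Set Plane := (Homeomorph.addLeft c) ⁻¹' C with hK
  have Kc : IsCompact K := (Homeomorph.addLeft c).isCompact_preimage.2 hc
  have Kv : Convex ℝ K := hv.translate_preimage_right c
  have Ks : ∀ x ∈ K, -x ∈ K := fun x hx => by
    have := hs _ hx
    change c + -x ∈ C
    convert this using 1
    simp only [Homeomorph.coe_addLeft]
    abel
  have Ki : ∀ x, x ∈ interior K ↔ c + x ∈ interior C := fun x => by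
    rw [hK, ← Homeomorph.preimage_interior]; rfl
  have K0 : K ∈ nhds (0 : Plane) := by
    obtain ⟨z, hz⟩ := hne
    have h1 : z - c ∈ interior K := (Ki _).2 (by simpa using hz)
    have := Kv.combo_interior_self_mem_interior h1 (Ks _ (interior_subset h1))
      (a := 1 / 2) (b := 1 / 2) (by norm_num) (by norm_num) (by norm_num)
    rw [smul_neg, add_neg_cancel] at this
    exact mem_interior_iff_mem_nhds.1 this
  have ab := absorbent_nhds_zero (𝕜 := ℝ) K0
  have gs : ∀ (r : ℝ) x, gauge K (r • x) = |r| * gauge K x := fun r x => by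
    rcases le_total 0 r with hr | hr
    · rw [gauge_smul_of_nonneg hr, abs_of_nonneg hr, smul_eq_mul]
    · rw [← gauge_neg Ks, ← neg_smul, gauge_smul_of_nonneg (neg_nonneg.2 hr), abs_of_nonpos hr,
        smul_eq_mul]
  have gm : ∀ x, gauge K x = 1 → x ∈ K := fun x hx => by
    rw [← Kc.isClosed.closure_eq, ← gauge_le_one_iff_mem_closure Kv K0, hx]
  have mk : ∀ a b : Plane, det2 a b ≠ 0 → IsN fun x : ℝ × ℝ => gauge K (x.1 • a + x.2 • b) := by
    intro a b hab
    refine ⟨fun x y => ?_, fun r x => ?_, fun x hx => ?_,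
      (continuous_gauge Kv K0).comp (by fun_prop)⟩
    · refine (congrArg _ ?_).trans_le (gauge_add_le Kv ab _ _)
      simp only [Prod.fst_add, Prod.snd_add]
      module
    · rw [← gs]
      congr 1
      simp only [Prod.smul_fst, Prod.smul_snd, smul_eq_mul]
      module
    · rw [gauge_pos ab ((NormedSpace.isVonNBounded_iff ℝ).2 Kc.isBounded)]
      intro e
      have e1 : det2 (x.1 • a + x.2 • b) b = x.1 * det2 a b := by simp [det2]; ring
      have e2 : det2 a (x.1 • a + x.2 • b) = x.2 * det2 a b := by simp [det2]; ring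
      rw [e] at e1 e2
      simp [det2] at e1 e2
      exact hx (Prod.ext (e1.resolve_right hab) (e2.resolve_right hab))
  obtain ⟨R, hR⟩ := Kc.isBounded.subset_closedBall 0
  let L : ℝ × ℝ → Plane := fun x => x.1 • (!₂[1, 0] : Plane) + x.2 • (!₂[0, 1] : Plane)
  have dL : ∀ x y, det2 (L x) (L y) = det x y := fun x y => by simp [L, det2, det]
  obtain ⟨a, b, h1, h2, h3, h4, h5⟩ := exists_min (mk !₂[1, 0] !₂[0, 1] (by simp [det2]))
    (R := R) fun x hx => by
      have h6 := mem_closedBall_zero_iff.1 (hR (gm _ hx))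
      have h7 := PiLp.norm_apply_le (L x) 0
      have h8 := PiLp.norm_apply_le (L x) 1
      rw [Prod.norm_def]
      refine max_le (le_trans ?_ (h7.trans h6)) (le_trans ?_ (h8.trans h6)) <;> simp [L]
  have hN := mk (L a) (L b) (by rw [dL]; exact h4.ne')
  have eL : ∀ x : ℝ × ℝ, x.1 • L a + x.2 • L b = L (x.1 • a + x.2 • b) := fun x => by
    simp only [L, Prod.fst_add, Prod.snd_add, Prod.smul_fst, Prod.smul_snd, smul_eq_mul]
    module
  have dd : ∀ x y : ℝ × ℝ, det (x.1 • a + x.2 • b) (y.1 • a + y.2 • b) = det a b * det x y :=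
    fun x y => by simp [det]; ring
  have n0 : gauge K ((1 : ℝ) • L a + (0 : ℝ) • L b) = 1 := by simpa using h1
  have n1 : gauge K ((0 : ℝ) • L a + (1 : ℝ) • L b) = 1 := by simpa using h2
  have n2 : gauge K ((-1 : ℝ) • L a + (1 : ℝ) • L b) = 1 := by
    rw [eL (-1, 1)]
    refine (congrArg (fun y => gauge K (L y)) ?_).trans h3
    module
  obtain ⟨x, cx, nx, ox⟩ := exists_cfg hN n0 n1 n2 (fun a' b' c1 c2 c3 c4 => by
    rw [eL] at c1 c2 c3
    have := h5 _ _ c1 c2 (by
      refine (congrArg (fun y => gauge K (L y)) ?_).trans c3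
      simp only [Prod.fst_sub, Prod.snd_sub]
      module) (by rw [dd]; positivity)
    rw [dd] at this
    exact le_of_mul_le_mul_left (by linarith) h4) hm d d0 hd
  have et : ∀ x y : ℝ × ℝ, tri 0 (x.1 • L a + x.2 • L b) (y.1 • L a + y.2 • L b) =
      det a b * det x y := fun x y => by
    rw [← dd, ← dL, ← eL, ← eL]
    simp [tri, det2]
  have hA := fan2 (3 * m) K (fun i => (x i).1 • L a + (x i).2 • L b) Kv Kc.isClosed Ks
    (mem_of_mem_nhds K0) (fun e => by
      have := nx 0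
      rw [e, gauge_zero] at this
      norm_num at this) (fun i _ => gm _ (nx i))
    fun i j hij hj => by rw [et]; exact mul_nonneg h4.le (ox i j hij (by omega))
  simp only [et, ← Finset.mul_sum] at hA
  obtain ⟨R', hR'⟩ := hc.isBounded.subset_ball 0
  refine packing C hne R' hR' (L a) (L b) (by rw [dL]; exact h4) (fun z hz p q hz' => ?_) ρ hρ ?_
  · refine lat_norm hN n0 n1 n2 p q ?_
    have g1 := (gauge_lt_one_iff_mem_interior Kv K0).2 ((Ki (z - c)).2 (by simpa using hz))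
    have g2 := (gauge_lt_one_iff_mem_interior Kv K0).2
      ((Ki (z + (2 * p : ℝ) • L a + (2 * q : ℝ) • L b - c)).2 (by simpa using hz'))
    have g3 := gauge_add_le Kv ab (z + (2 * p : ℝ) • L a + (2 * q : ℝ) • L b - c) (-(z - c))
    rw [gauge_neg Ks, show z + (2 * p : ℝ) • L a + (2 * q : ℝ) • L b - c + -(z - c) =
      (2 : ℝ) • ((p : ℝ) • L a + (q : ℝ) • L b) by module, gs] at g3
    norm_num at g3
    linarith
  · have e : volume K = volume C := measure_preimage_add volume c C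
    rw [← e, dL]
    refine le_trans (ENNReal.ofReal_le_ofReal ?_) hA
    have := mul_le_mul_of_nonneg_left (fin x cx) h4.le
    unfold SS at this
    linarith

end Pool.Agent.MP_5c967c_co.H44
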