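import Pool.Agent.MP_5c967c_co.H44.Nrm

/-! A monotone sequence of inscribed hexagons. -/

namespace Pool.Agent.MP_5c967c_co.H44

open Set

variable {N : ℝ × ℝ → ℝ}

/-- three times the conformal part of a hexagon -/
def PP (a b : ℝ × ℝ) : ℝ × ℝ := (a.1 - a.2 + b.1 + 2 * b.2, a.1 + 2 * a.2 - 2 * b.1 - b.2)

/-- normalisation -/
noncomputable def un (N : ℝ × ℝ → ℝ) (u : ℝ × ℝ) : ℝ × ℝ := (N u)⁻¹ • u

theorem IsN.un_one (h : IsN N) {u : ℝ × ℝ} (hu : u ≠ 0) : N (un N u) = 1 := by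
  have := h.pos u hu
  rw [un, h.smul, abs_of_pos (inv_pos.2 this), inv_mul_cancel₀ this.ne']

theorem det_un (u w : ℝ × ℝ) : det (un N u) (un N w) = (N u)⁻¹ * (N w)⁻¹ * det u w := by
  simp [un, det]; ring

theorem neA (s : ℝ) : ((1 - s, s) : ℝ × ℝ) ≠ 0 := fun h => by
  have h1 := congrArg Prod.fst h
  have h2 := congrArg Prod.snd h
  simp only [Prod.fst_zero, Prod.snd_zero] at h1 h2
  linarith

theorem neB (t : ℝ) : ((-t, 1) : ℝ × ℝ) ≠ 0 := fun h => by simpa using congrArg Prod.snd h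

theorem IsN.det_un_nonneg (h : IsN N) {u w : ℝ × ℝ} (hu : u ≠ 0) (hw : w ≠ 0)
    (h0 : 0 ≤ det u w) : 0 ≤ det (un N u) (un N w) := by
  have := h.pos u hu
  have := h.pos w hw
  rw [det_un]; positivity

theorem IsN.det_un_pos (h : IsN N) {u w : ℝ × ℝ} (hu : u ≠ 0) (hw : w ≠ 0)
    (h0 : 0 < det u w) : 0 < det (un N u) (un N w) := by
  have := h.pos u hu
  have := h.pos w hw
  rw [det_un]; positivity

theorem IsN.monoF (h : IsN N) {s s' t t' : ℝ} (h1 : 0 ≤ s) (h2 : s ≤ s') (h3 : s' ≤ 1)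
    (h4 : 0 ≤ t') (h5 : t' ≤ t) :
    N (un N (-t', 1) - un N (1 - s', s')) ≤ N (un N (-t, 1) - un N (1 - s, s)) := by
  have AB : ∀ s t : ℝ, det (1 - s, s) (-t, 1) = 1 - s + s * t := fun s t => by simp [det]
  have e1 : N (un N (-t', 1) - un N (1 - s', s')) ≤ N (un N (-t', 1) - un N (1 - s, s)) := by
    rcases h2.eq_or_lt with rfl | h6
    · exact le_rfl
    have p := h.det_un_pos (neA s) (neB t') (by rw [AB]; nlinarith [mul_nonneg h1 h4])
    refine h.mono' (h.un_one (neA s)) (h.un_one (neA s')) (h.un_one (neB t'))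
      (mul_nonneg (h.det_un_nonneg (neA s) (neA s') ?_) p.le)
      (mul_nonneg (h.det_un_nonneg (neA s') (neB t') ?_) p.le) p.ne'
    · simp only [det]; linarith
    · rw [AB]; nlinarith [mul_nonneg (h1.trans h2) h4]
  refine e1.trans ?_
  rcases h5.eq_or_lt with rfl | h6
  · exact le_rfl
  have p := h.det_un_pos (neA s) (neB t) (by
    rw [AB]
    rcases h1.eq_or_lt with rfl | h7
    · norm_num
    · nlinarith [mul_pos h7 (h4.trans_lt h6)])
  rw [h.sub_comm, h.sub_comm (un N (-t, 1))]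
  refine h.mono' (h.un_one (neB t)) (h.un_one (neB t')) (h.un_one (neA s)) ?_ ?_ ?_
  · rw [det_swap, det_swap (un N (-t, 1)), neg_mul_neg]
    exact mul_nonneg (h.det_un_nonneg (neB t') (neB t) (by simp only [det]; linarith)) p.le
  · rw [det_swap, det_swap (un N (-t, 1)), neg_mul_neg]
    exact mul_nonneg (h.det_un_nonneg (neA s) (neB t')
      (by rw [AB]; nlinarith [mul_nonneg h1 h4])) p.le
  · rw [det_swap]
    exact neg_ne_zero.2 p.ne'

/-- a hexagon between the base hexagon and its rotation -/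
structure Hx (N : ℝ × ℝ → ℝ) (a b : ℝ × ℝ) : Prop where
  na : N a = 1
  nb : N b = 1
  nc : N (b - a) = 1
  a1 : 0 ≤ a.1
  a2 : 0 ≤ a.2
  b1 : b.1 ≤ 0
  b2 : 0 ≤ b.1 + b.2

theorem Hx.det_nonneg {a b a' b' : ℝ × ℝ} (x : Hx N a b) (y : Hx N a' b') : 0 ≤ det a b' := by
  have := mul_nonneg x.a1 (show 0 ≤ b'.2 by linarith [y.b1, y.b2])
  have := mul_nonneg x.a2 (neg_nonneg.2 y.b1)
  simp only [det]; linarith

theorem Hx.third (h : IsN N) (n0 : N (1, 0) = 1) (n1 : N (0, 1) = 1) (n2 : N (-1, 1) = 1)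
    {a b : ℝ × ℝ} (x : Hx N a b) : 0 ≤ b.2 - a.2 ∧ b.1 - a.1 + (b.2 - a.2) ≤ 0 := by
  have h1 := h.third n0 n1 x.na x.nb (by simp [det]) (by simpa [det] using x.a2)
    (by simpa [det] using x.a1) (by simpa [det] using x.b1)
  have h2 := h.third x.na x.nb n1 n2 (x.det_nonneg x) (by simpa [det] using x.a1)
    (by simpa [det] using x.b1) (by simpa [det] using x.b2)
  simp [det] at h1 h2
  constructor <;> linarith

theorem exists_seq (h : IsN N) (n0 : N (1, 0) = 1) (n1 : N (0, 1) = 1) (n2 : N (-1, 1) = 1)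
    (d : ℕ → ℝ × ℝ) (d0 : (d 0).2 = 0)
    (hd : ∀ k, 0 ≤ (d k).1 ∧ 0 ≤ (d k).2 ∧ 0 < (d k).1 + (d k).2 ∧ 0 ≤ det (d k) (d (k + 1))) :
    ∃ a b : ℕ → ℝ × ℝ, a 0 = (1, 0) ∧ b 0 = (0, 1) ∧
      (∀ k, Hx N (a k) (b k) ∧ det (d k) (PP (a k) (b k)) = 0) ∧
      ∀ k l, k ≤ l → 0 ≤ det (a k) (a l) ∧ 0 ≤ det (b k) (b l) := by
  have cU : ∀ u : ℝ × ℝ → ℝ × ℝ, Continuous u → (∀ z, u z ≠ 0) →
      Continuous fun z => un N (u z) := fun u hu h0 =>
    ((h.cont.comp hu).inv₀ fun z => (h.pos _ (h0 z)).ne').smul hu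
  have cA : Continuous fun z : ℝ × ℝ => un N (1 - z.1, z.1) :=
    cU _ (by fun_prop) fun z => neA z.1
  have cB : Continuous fun z : ℝ × ℝ => un N (-z.2, 1) := cU _ (by fun_prop) fun z => neB z.2
  have A0 : un N (1 - 0, 0) = (1, 0) := by simp [un, n0]
  have A1 : un N (1 - 1, 1) = (0, 1) := by simp [un, n1]
  have B0 : un N (-0, 1) = (0, 1) := by simp [un, n1]
  have B1 : un N (-1, 1) = (-1, 1) := by simp [un, n2]
  let Good : ℕ → ℝ × ℝ → Prop := fun k z => 0 ≤ z.1 ∧ z.1 ≤ 1 ∧ 0 ≤ z.2 ∧ z.2 ≤ 1 ∧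
    N (un N (-z.2, 1) - un N (1 - z.1, z.1)) = 1 ∧
    det (d k) (PP (un N (1 - z.1, z.1)) (un N (-z.2, 1))) = 0
  have hx : ∀ k z, Good k z → Hx N (un N (1 - z.1, z.1)) (un N (-z.2, 1)) := by
    rintro k ⟨s, t⟩ ⟨h1, h2, h3, h4, h5, -⟩
    have p := (inv_pos.2 (h.pos _ (neA s))).le
    have q := (inv_pos.2 (h.pos _ (neB t))).le
    refine ⟨h.un_one (neA s), h.un_one (neB t), h5, mul_nonneg p (sub_nonneg.2 h2),
      mul_nonneg p h1, mul_nonpos_of_nonneg_of_nonpos q (neg_nonpos.2 h3), ?_⟩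
    have := mul_nonneg q (sub_nonneg.2 h4)
    simp only [un, Prod.smul_fst, Prod.smul_snd, smul_eq_mul]
    linarith
  have step : ∀ k (z : {z // Good k z}), ∃ z' : {z // Good (k + 1) z},
      z.1.1 ≤ z'.1.1 ∧ z.1.2 ≤ z'.1.2 := by
    rintro k ⟨⟨s0, t0⟩, g⟩
    have x := hx k _ g
    obtain ⟨h1, h2, h3, h4, h5, h6⟩ := g
    obtain ⟨s, t, c1, c2, c3, c4, c5, c6⟩ := cross
      (F := fun z => N (un N (-z.2, 1) - un N (1 - z.1, z.1)))
      (G := fun z => det (d (k + 1)) (PP (un N (1 - z.1, z.1)) (un N (-z.2, 1))))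
      (h.cont.comp (cB.sub cA))
      ((show Continuous fun y : (ℝ × ℝ) × ℝ × ℝ => det (d (k + 1)) (PP y.1 y.2) by
        unfold det PP; fun_prop).comp (cA.prodMk cB)) h2 h4
      (fun s s' t t' e1 e2 e3 e4 e5 _ => h.monoF (h1.trans e1) e2 e3 (h3.trans e4) e5) h5
      (by
        simp only [A1, B1]
        rw [← h.neg]
        simpa using n0) (by
        obtain ⟨y1, y2⟩ := x.third h n0 n1 n2
        obtain ⟨-, -, d3, d4⟩ := hd k
        have := x.a1; have := x.a2; have := x.b1; have := x.b2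
        dsimp only at *
        generalize un N (1 - s0, s0) = a at *
        generalize un N (-t0, 1) = b at *
        have p : 0 ≤ (PP a b).1 + (PP a b).2 := by simp only [PP]; linarith
        generalize PP a b = P at *
        refine le_of_mul_le_mul_left ?_ d3
        have := mul_nonneg d4 p
        simp only [det] at *
        linear_combination this + ((d (k + 1)).1 + (d (k + 1)).2) * h6) (by
        simp only [A1, B1]
        have := (hd (k + 1)).1
        simp only [det, PP]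
        linarith)
    exact ⟨⟨(s, t), h1.trans c1, c2, h3.trans c3, c4, c5, c6⟩, c1, c3⟩
  choose f hf using step
  have g0 : Good 0 (0, 0) := by
    refine ⟨le_rfl, zero_le_one, le_rfl, zero_le_one, ?_, ?_⟩
    · simp only [A0, B0]
      simpa using n2
    · simp only [A0, B0]
      simp [det, PP, d0]
  let z : ∀ k, {z // Good k z} := fun k => Nat.rec ⟨(0, 0), g0⟩ f k
  have m1 : Monotone fun k => (z k).1.1 := monotone_nat_of_le_succ fun k => (hf k (z k)).1
  have m2 : Monotone fun k => (z k).1.2 := monotone_nat_of_le_succ fun k => (hf k (z k)).2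
  refine ⟨fun k => un N (1 - (z k).1.1, (z k).1.1), fun k => un N (-(z k).1.2, 1), A0, B0,
    fun k => ⟨hx k _ (z k).2, (z k).2.2.2.2.2.2⟩, fun k l hkl => ⟨?_, ?_⟩⟩
  · refine h.det_un_nonneg (neA _) (neA _) ?_
    have := m1 hkl
    simp only [det] at *
    linarith
  · refine h.det_un_nonneg (neB _) (neB _) ?_
    have := m2 hkl
    simp only [det] at *
    linarith

end Pool.Agent.MP_5c967c_co.H44
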