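import Mathlib
import Pool.Agent.MP_5c967c_co.H44.Chk

/-! Soundness of the checker: packed linear and quadratic forms. -/

namespace Pool.Agent.MP_5c967c_co.H44

open Finset

theorem frc_eq {α : Type} (n : ℕ) (k : ℕ → α) : frc n k = k n := by cases n <;> rfl

theorem frcI_eq {α : Type} (z : ℤ) (k : ℤ → α) : frcI z k = k z := by
  cases z <;> simp [frcI, frc_eq]

theorem band_eq (a b : Bool) : band a b = true ↔ a = true ∧ b = true := by
  cases a <;> simp [band]

/-- digit -/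
def dg (w a i : ℕ) : ℕ := a / 2 ^ (w * i) % 2 ^ w

/-- signed digit -/
def cf (w a i : ℕ) : ℤ := (dg w a i : ℤ) - 2 ^ (w - 1)

/-- the value of a coded linear form -/
noncomputable def val (v : ℕ → ℝ) (m w a : ℕ) : ℝ := ∑ i ∈ range m, (cf w a i : ℝ) * v i

theorem look_eq (W T j : ℕ) : look W T j = dg W T j := by
  have e : look W T j = (T >>> (W * j)) % (1 <<< W) := rfl
  rw [e, Nat.shiftRight_eq_div_pow, Nat.shiftLeft_eq, one_mul, dg]

theorem dg_lt (w a i : ℕ) : dg w a i < 2 ^ w := Nat.mod_lt _ (by positivity)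

theorem dg_succ (w a i : ℕ) : dg w a (i + 1) = dg w (a / 2 ^ w) i := by
  unfold dg
  rw [Nat.div_div_eq_div_mul, ← pow_add]
  congr 3
  ring

theorem dg_cons_zero {W u : ℕ} (T : ℕ) (h : u < 2 ^ W) : dg W (u + T * 2 ^ W) 0 = u := by
  simp [dg, Nat.mod_eq_of_lt h]

theorem dg_cons_succ {W u : ℕ} (T j : ℕ) (h : u < 2 ^ W) :
    dg W (u + T * 2 ^ W) (j + 1) = dg W T j := by
  rw [dg_succ, Nat.add_mul_div_right _ _ (by positivity), Nat.div_eq_of_lt h, zero_add]

theorem sum_shift (s m : ℕ) (f : ℕ → ℕ) : ∑ i ∈ range (m + 1), f i * 2 ^ (s * i) =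
    f 0 + (∑ i ∈ range m, f (i + 1) * 2 ^ (s * i)) * 2 ^ s := by
  rw [sum_range_succ', sum_mul, add_comm]
  congr 1
  · simp
  · refine sum_congr rfl fun i _ => ?_
    rw [mul_add, pow_add]
    ring

theorem sum_lt (s : ℕ) : ∀ (m : ℕ) (f : ℕ → ℕ), (∀ i < m, f i < 2 ^ s) →
    ∑ i ∈ range m, f i * 2 ^ (s * i) < 2 ^ (s * m)
  | 0, _, _ => by simp
  | m + 1, f, h => by
    rw [sum_shift, mul_add, pow_add, mul_one]
    have h1 := sum_lt s m (fun i => f (i + 1)) fun i hi => h _ (by omega)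
    have h2 := h 0 (by omega)
    have h3 := Nat.mul_le_mul_right (2 ^ s) (Nat.succ_le_of_lt h1)
    rw [Nat.succ_mul] at h3
    omega

theorem dg_sum (s : ℕ) : ∀ (m : ℕ) (f : ℕ → ℕ), (∀ i < m, f i < 2 ^ s) → ∀ j < m,
    dg s (∑ i ∈ range m, f i * 2 ^ (s * i)) j = f j
  | 0, _, _, _, hj => by omega
  | m + 1, f, h, 0, _ => by rw [sum_shift, dg_cons_zero _ (h 0 (by omega))]
  | m + 1, f, h, j + 1, hj => by
    rw [sum_shift, dg_cons_succ _ _ (h 0 (by omega))]
    exact dg_sum s m (fun i => f (i + 1)) (fun i hi => h _ (by omega)) j (by omega)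

theorem hor_eq (w s : ℕ) : ∀ m a : ℕ, hor w s m a = ∑ i ∈ range m, dg w a i * 2 ^ (s * i)
  | 0, _ => rfl
  | m + 1, a => by
    have e : hor w s (m + 1) a = a % (1 <<< w) + (hor w s m (a >>> w)) <<< s := by
      simp only [hor, frc_eq]; rfl
    rw [e, hor_eq w s m, sum_shift, Nat.shiftLeft_eq, Nat.shiftLeft_eq,
      Nat.shiftRight_eq_div_pow]
    simp only [dg_succ]
    simp [dg]

theorem ones_eq (s : ℕ) : ∀ m : ℕ, ones s m = ∑ i ∈ range m, 1 * 2 ^ (s * i)
  | 0 => rfl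
  | m + 1 => by
    have e : ones s (m + 1) = 1 + (ones s m) <<< s := rfl
    rw [e, ones_eq s m, sum_shift s m fun _ => 1, Nat.shiftLeft_eq]

/-- a packed linear form -/
def LRep (v : ℕ → ℝ) (n s : ℕ) (T : ℤ) (x : ℝ) (S : ℕ) : Prop :=
  ∃ c : ℕ → ℤ, (∀ i, |c i| ≤ S) ∧ T = ∑ i ∈ range n, c i * 2 ^ (s * i) ∧
    x = ∑ i ∈ range n, (c i : ℝ) * v i

/-- a packed quadratic form -/
def QRep (v : ℕ → ℝ) (n : ℕ) (T : ℤ) (x : ℝ) (S : ℕ) : Prop :=
  ∃ c : ℕ → ℕ → ℤ, (∀ i j, |c i j| ≤ S) ∧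
    T = ∑ i ∈ range n, ∑ j ∈ range n, c i j * (2 ^ (96 * n * i) * 2 ^ (96 * j)) ∧
    x = ∑ i ∈ range n, ∑ j ∈ range n, (c i j : ℝ) * (v i * v j)

variable {v : ℕ → ℝ} {n s : ℕ} {T T' : ℤ} {x x' : ℝ} {S S' : ℕ}

theorem LRep.cast (h : LRep v n s T x S) (h1 : T = T') (h2 : x = x') (h3 : S ≤ S') :
    LRep v n s T' x' S' := by
  obtain ⟨c, a1, a2, a3⟩ := h
  exact ⟨c, fun i => (a1 i).trans (by exact_mod_cast h3), h1 ▸ a2, h2 ▸ a3⟩

theorem LRep.zero : LRep v n s 0 0 0 := ⟨fun _ => 0, by simp, by simp, by simp⟩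

theorem LRep.add_mul (h : LRep v n s T x S) (h' : LRep v n s T' x' S') (μ : ℕ) :
    LRep v n s (T + μ * T') (x + μ * x') (S + μ * S') := by
  obtain ⟨c, a1, rfl, rfl⟩ := h
  obtain ⟨c', b1, rfl, rfl⟩ := h'
  refine ⟨fun i => c i + μ * c' i, fun i => ?_, ?_, ?_⟩
  · refine (abs_add_le _ _).trans ?_
    rw [abs_mul, Nat.abs_cast]
    push_cast
    exact add_le_add (a1 i) (mul_le_mul_of_nonneg_left (b1 i) (by positivity))
  · rw [mul_sum, ← sum_add_distrib]
    exact sum_congr rfl fun i _ => by ring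
  · rw [mul_sum, ← sum_add_distrib]
    exact sum_congr rfl fun i _ => by push_cast; ring

theorem LRep.neg (h : LRep v n s T x S) : LRep v n s (-T) (-x) S := by
  obtain ⟨c, a1, rfl, rfl⟩ := h
  exact ⟨fun i => -c i, fun i => by simpa using a1 i, by simp, by simp⟩

theorem abs_cf {w : ℕ} (hw : 1 ≤ w) (a i : ℕ) : |cf w a i| ≤ (2 ^ (w - 1) : ℕ) := by
  obtain ⟨w, rfl⟩ := Nat.exists_eq_add_of_le' hw
  have h1 : (dg (w + 1) a i : ℤ) < 2 ^ (w + 1) := by exact_mod_cast dg_lt _ _ _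
  have h2 : (0 : ℤ) ≤ dg (w + 1) a i := by positivity
  rw [pow_succ] at h1
  rw [abs_le, cf, Nat.add_sub_cancel]
  push_cast
  constructor <;> linarith

theorem pk_eq (w s m a : ℕ) : pk w s m a = (hor w s m a : ℤ) - (ones s m * 2 ^ (w - 1) : ℕ) := by
  rw [pk, Int.subNatNat_eq_coe]
  congr 2
  exact Nat.shiftLeft_eq _ _

theorem pk_rep {w m : ℕ} (hw : 1 ≤ w) (hm : m ≤ n) (a : ℕ) :
    LRep v n s (pk w s m a) (val v m w a) (2 ^ (w - 1)) := by
  have hs : range m = (range n).filter (· < m) := by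
    ext i
    simp only [mem_range, mem_filter]
    omega
  refine ⟨fun i => if i < m then cf w a i else 0, fun i => ?_, ?_, ?_⟩
  · by_cases h : i < m
    · simpa only [if_pos h] using abs_cf hw a i
    · simp only [if_neg h, abs_zero]; positivity
  · rw [pk_eq, hor_eq, ones_eq]
    push_cast
    rw [sum_mul, ← sum_sub_distrib, hs, sum_filter]
    refine sum_congr rfl fun i _ => ?_
    split_ifs
    · rw [cf]; ring
    · simp
  · rw [val, hs, sum_filter]
    refine sum_congr rfl fun i _ => ?_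
    by_cases h : i < m <;> simp [h]

theorem QRep.cast (h : QRep v n T x S) (h1 : T = T') (h2 : x = x') (h3 : S ≤ S') :
    QRep v n T' x' S' := by
  obtain ⟨c, a1, a2, a3⟩ := h
  exact ⟨c, fun i j => (a1 i j).trans (by exact_mod_cast h3), h1 ▸ a2, h2 ▸ a3⟩

theorem QRep.zero : QRep v n 0 0 0 := ⟨fun _ _ => 0, by simp, by simp, by simp⟩

theorem QRep.add_mul (h : QRep v n T x S) (h' : QRep v n T' x' S') (μ : ℤ) :
    QRep v n (T + μ * T') (x + μ * x') (S + μ.natAbs * S') := by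
  obtain ⟨c, a1, rfl, rfl⟩ := h
  obtain ⟨c', b1, rfl, rfl⟩ := h'
  refine ⟨fun i j => c i j + μ * c' i j, fun i j => ?_, ?_, ?_⟩
  · refine (abs_add_le _ _).trans ?_
    rw [abs_mul]
    push_cast
    exact add_le_add (a1 i j) (mul_le_mul_of_nonneg_left (b1 i j) (by positivity))
  · simp only [mul_sum, ← sum_add_distrib]
    exact sum_congr rfl fun i _ => sum_congr rfl fun j _ => by ring
  · simp only [mul_sum, ← sum_add_distrib]
    exact sum_congr rfl fun i _ => sum_congr rfl fun j _ => by push_cast; ring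

theorem QRep.add (h : QRep v n T x S) (h' : QRep v n T' x' S') :
    QRep v n (T + T') (x + x') (S + S') :=
  (h.add_mul h' 1).cast (by ring) (by simp) (by simp)

theorem QRep.sub (h : QRep v n T x S) (h' : QRep v n T' x' S') :
    QRep v n (T - T') (x - x') (S + S') :=
  (h.add_mul h' (-1)).cast (by ring) (by simp [sub_eq_add_neg]) (by simp)

theorem LRep.mul (h : LRep v n (96 * n) T x S) (h' : LRep v n 96 T' x' S') :
    QRep v n (T * T') (x * x') (S * S') := by
  obtain ⟨c, a1, rfl, rfl⟩ := h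
  obtain ⟨c', b1, rfl, rfl⟩ := h'
  refine ⟨fun i j => c i * c' j, fun i j => ?_, ?_, ?_⟩
  · rw [abs_mul]
    push_cast
    exact mul_le_mul (a1 i) (b1 j) (abs_nonneg _) (by positivity)
  · rw [sum_mul_sum]
    exact sum_congr rfl fun i _ => sum_congr rfl fun j _ => by ring
  · rw [sum_mul_sum]
    exact sum_congr rfl fun i _ => sum_congr rfl fun j _ => by push_cast; ring

theorem QRep.const (hn : 0 < n) (h0 : v 0 = 1) (q : ℕ) : QRep v n q q q := by
  refine ⟨fun i j => if i = 0 then if j = 0 then q else 0 else 0, fun i j => ?_, ?_, ?_⟩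
  · dsimp only
    split_ifs <;> simp
  · rw [sum_eq_single 0, sum_eq_single 0] <;> simp +contextual [hn.ne']
  · rw [sum_eq_single 0, sum_eq_single 0] <;> simp +contextual [hn.ne', h0]

theorem allLt_eq (p : ℕ → Bool) : ∀ m, allLt m p = true → ∀ i < m, p i = true
  | 0, _, _, hi => by omega
  | m + 1, h, i, hi => by
    have e : allLt (m + 1) p = band (p m) (allLt m p) := rfl
    rw [e, band_eq] at h
    rcases Nat.lt_succ_iff_lt_or_eq.1 hi with h1 | rfl
    · exact allLt_eq p m h.2 i h1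
    · exact h.1

theorem dom_nonneg (c : ℕ → ℕ → ℝ) (τ : ℝ) (hτ : 0 ≤ τ) (h1 : ∀ i < n, n * τ ≤ 2 * c i i)
    (h2 : ∀ i < n, ∀ j < i, |c i j + c j i| ≤ τ) :
    0 ≤ ∑ i ∈ range n, ∑ j ∈ range n, c i j * (v i * v j) := by
  have e : ∑ i ∈ range n, ∑ j ∈ range n, c j i * (v i * v j) =
      ∑ i ∈ range n, ∑ j ∈ range n, c i j * (v i * v j) := by
    rw [sum_comm]
    exact sum_congr rfl fun i _ => sum_congr rfl fun j _ => by ring
  have key : ∀ i ∈ range n, ∀ j ∈ range n,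
      (if j = i then 2 * n * τ * v i ^ 2 else 0) - τ * v i ^ 2 - τ * v j ^ 2 ≤
        2 * (c i j * (v i * v j) + c j i * (v i * v j)) := by
    intro i hi j hj
    by_cases h : j = i
    · subst h
      have := mul_le_mul_of_nonneg_right (h1 j (mem_range.1 hj)) (sq_nonneg (v j))
      have := mul_nonneg hτ (sq_nonneg (v j))
      rw [if_pos rfl]
      nlinarith
    · have h3 : |c i j + c j i| ≤ τ := by
        rcases lt_or_gt_of_ne h with h | h
        · exact h2 i (mem_range.1 hi) j h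
        · rw [add_comm]; exact h2 j (mem_range.1 hj) i h
      rw [if_neg h]
      obtain ⟨h4, h5⟩ := abs_le.1 h3
      nlinarith [mul_nonneg (sub_nonneg.2 h5) (sq_nonneg (v i - v j)),
        mul_nonneg (sub_nonneg.2 h4) (sq_nonneg (v i + v j))]
  have h3 := sum_le_sum fun i hi => sum_le_sum (key i hi)
  simp only [sum_sub_distrib, sum_ite_eq', ← mul_sum, sum_add_distrib, e, sum_const, card_range,
    nsmul_eq_mul] at h3
  rw [sum_congr rfl fun i hi => if_pos hi, ← mul_sum] at h3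
  linarith

theorem dom_sound (h : QRep v n T x S) (hS : S < 2 ^ 95) (τ : ℕ)
    (hd : dom n (96 * n) τ (T + (ones (96 * n) n * (ones 96 n <<< 95) : ℕ)).toNat = true) :
    0 ≤ x := by
  obtain ⟨c, a1, a2, rfl⟩ := h
  have hS' : (S : ℤ) < 2 ^ 95 := by exact_mod_cast hS
  have hf : ∀ i j, ((c i j + 2 ^ 95).toNat : ℤ) = c i j + 2 ^ 95 := fun i j =>
    Int.toNat_of_nonneg (by linarith [(abs_le.1 (a1 i j)).1])
  have hlt : ∀ i j, (c i j + 2 ^ 95).toNat < 2 ^ 96 := fun i j => by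
    have := (abs_le.1 (a1 i j)).2
    zify
    rw [hf]
    linarith
  have hA : (T + (ones (96 * n) n * (ones 96 n <<< 95) : ℕ)).toNat = ∑ i ∈ range n,
      (∑ j ∈ range n, (c i j + 2 ^ 95).toNat * 2 ^ (96 * j)) * 2 ^ (96 * n * i) := by
    rw [← Int.toNat_natCast (∑ i ∈ range n, _)]
    congr 1
    rw [a2, ones_eq, ones_eq, Nat.shiftLeft_eq]
    simp only [Nat.cast_mul, Nat.cast_sum, Nat.cast_pow, Nat.cast_ofNat, Nat.cast_one, hf]
    rw [sum_mul (range n), ← sum_add_distrib]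
    refine sum_congr rfl fun i _ => ?_
    rw [sum_mul, sum_mul, mul_sum, ← sum_add_distrib]
    exact sum_congr rfl fun j _ => by ring
  rw [hA] at hd
  have hrow : ∀ i < n, look (96 * n) (∑ i ∈ range n,
      (∑ j ∈ range n, (c i j + 2 ^ 95).toNat * 2 ^ (96 * j)) * 2 ^ (96 * n * i)) i =
      ∑ j ∈ range n, (c i j + 2 ^ 95).toNat * 2 ^ (96 * j) := fun i hi => by
    rw [look_eq]
    exact dg_sum _ n _ (fun i _ => sum_lt 96 n _ fun j _ => hlt i j) i hi
  have hent : ∀ i, ∀ j < n, look 96 (∑ j ∈ range n, (c i j + 2 ^ 95).toNat * 2 ^ (96 * j)) j =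
      (c i j + 2 ^ 95).toNat := fun i j hj => by
    rw [look_eq]
    exact dg_sum _ n _ (fun j _ => hlt i j) j hj
  have hd' := allLt_eq _ _ hd
  refine dom_nonneg (fun i j => (c i j : ℝ)) τ (by positivity) (fun i hi => ?_)
    fun i hi j hj => ?_
  · have h1 := hd' i hi
    rw [frc_eq, band_eq, hrow i hi, hent i i hi] at h1
    have h2 : 79228162514264337593543950336 + n * τ ≤ 2 * (c i i + 2 ^ 95).toNat :=
      Nat.le_of_ble_eq_true h1.1
    zify at h2
    rw [hf] at h2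
    have h3 : (n : ℤ) * τ ≤ 2 * c i i := by linarith
    exact_mod_cast h3
  · have h1 := hd' i hi
    rw [frc_eq, band_eq] at h1
    have h2 := allLt_eq _ _ h1.2 j hj
    rw [frc_eq, band_eq, hrow i hi, hrow j (hj.trans hi), hent i j (hj.trans hi), hent j i hi]
      at h2
    have h3 : (c i j + 2 ^ 95).toNat + (c j i + 2 ^ 95).toNat ≤
      79228162514264337593543950336 + τ := Nat.le_of_ble_eq_true h2.1
    have h4 : 79228162514264337593543950336 ≤
      (c i j + 2 ^ 95).toNat + (c j i + 2 ^ 95).toNat + τ := Nat.le_of_ble_eq_true h2.2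
    zify at h3 h4
    rw [hf, hf] at h3 h4
    have h5 : |c i j + c j i| ≤ τ := abs_le.2 ⟨by linarith, by linarith⟩
    exact_mod_cast h5

end Pool.Agent.MP_5c967c_co.H44
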