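import Pool.Agent.MP_5c967c_co.H44.Snd1

/-! Soundness of the checker. -/

namespace Pool.Agent.MP_5c967c_co.H44

open Finset

variable {v : ℕ → ℝ} {n : ℕ}

/-- the offset -/
noncomputable def off (n : ℕ) : ℕ := ones 96 n * 2 ^ 15

/-- the table of linear constraints -/
def CtxU (v : ℕ → ℝ) (n T c : ℕ) : Prop :=
  ∀ j < c, ∃ x, 0 ≤ x ∧ LRep v n 96 ((dg (96 * n) T j : ℤ) - off n) x (2 ^ 15)

/-- the list of linear constraints -/
def CtxH (v : ℕ → ℝ) (n : ℕ) (H : List ℤ) : Prop :=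
  ∀ h ∈ H, ∃ x, 0 ≤ x ∧ LRep v n (96 * n) h x (2 ^ 15)

/-- a valid family of determinant constraints -/
def EntOk (v : ℕ → ℝ) (n : ℕ) (e : Ent) : Prop :=
  0 < e.cnt ∧ e.kap ≤ 2 ^ 30 ∧ ∃ ex ey, LRep v n (96 * n) e.hx ex (2 ^ 15) ∧
    LRep v n (96 * n) e.hy ey (2 ^ 15) ∧ ∀ j < e.cnt, ∃ fx fy,
      LRep v n 96 ((dg (96 * n) e.tab (2 * j) : ℤ) - off n) fx (2 ^ 15) ∧
      LRep v n 96 ((dg (96 * n) e.tab (2 * j + 1) : ℤ) - off n) fy (2 ^ 15) ∧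
      (e.kap : ℝ) ≤ ex * fy - ey * fx

/-- the accumulator -/
def Acc (v : ℕ → ℝ) (n : ℕ) (G : ℝ) (B : ℕ) (Q : ℤ) (M : ℕ) : Prop :=
  ∃ x, x ≤ G ∧ QRep v n Q x (B + M * 2 ^ 32)

theorem step {u m w : ℕ} {y x : ℝ} (h : LRep v n 96 ((u : ℤ) - (m * off n : ℕ)) y (m * 2 ^ 15))
    (h' : LRep v n 96 ((w : ℤ) - off n) x (2 ^ 15)) (μ : ℕ) :
    LRep v n 96 (((u + μ * w : ℕ) : ℤ) - ((m + μ) * off n : ℕ)) (y + μ * x) ((m + μ) * 2 ^ 15) :=
  (h.add_mul h' μ).cast (by push_cast; ring) rfl (by rw [add_mul])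

theorem grp_sound {T c : ℕ} (hT : CtxU v n T c) (hc : 0 < c) (k : ℕ → ℕ → Bool) :
    ∀ f g u m : ℕ, (∃ y, 0 ≤ y ∧ LRep v n 96 ((u : ℤ) - (m * off n : ℕ)) y (m * 2 ^ 15)) →
      grp (96 * n) T c f g u m k = true →
      ∃ u m : ℕ, (∃ y, 0 ≤ y ∧ LRep v n 96 ((u : ℤ) - (m * off n : ℕ)) y (m * 2 ^ 15)) ∧
        k u m = true := by
  intro f
  induction f with
  | zero => intro _ _ _ _ h; simp [grp] at h
  | succ f ih =>
    rintro (_ | g) u m ⟨y, hy, hr⟩ h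
    · exact ⟨u, m, ⟨y, hy, hr⟩, h⟩
    have e : grp (96 * n) T c (f + 1) (g + 1) u m k = grp (96 * n) T c f ((g + 1) >>> 40)
        (u + mulr (g + 1) * look (96 * n) T ((g + 1) % 256 % c)) (m + mulr (g + 1)) k := by
      simp only [grp, frc_eq]; rfl
    rw [e, look_eq] at h
    obtain ⟨x, hx, hr'⟩ := hT _ (Nat.mod_lt ((g + 1) % 256) hc)
    exact ih _ _ _ ⟨_, by positivity, step hr hr' _⟩ h

theorem grp2_sound {T c : ℕ} {ex ey κ : ℝ} (hc : 0 < c)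
    (hT : ∀ j < c, ∃ fx fy, LRep v n 96 ((dg (96 * n) T (2 * j) : ℤ) - off n) fx (2 ^ 15) ∧
      LRep v n 96 ((dg (96 * n) T (2 * j + 1) : ℤ) - off n) fy (2 ^ 15) ∧
      κ ≤ ex * fy - ey * fx) (k : ℕ → ℕ → ℕ → Bool) :
    ∀ f g x y m : ℕ, (∃ X Y, m * κ ≤ ex * Y - ey * X ∧
        LRep v n 96 ((x : ℤ) - (m * off n : ℕ)) X (m * 2 ^ 15) ∧
        LRep v n 96 ((y : ℤ) - (m * off n : ℕ)) Y (m * 2 ^ 15)) →
      grp2 (96 * n) T c f g x y m k = true →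
      ∃ x y m : ℕ, (∃ X Y, m * κ ≤ ex * Y - ey * X ∧
        LRep v n 96 ((x : ℤ) - (m * off n : ℕ)) X (m * 2 ^ 15) ∧
        LRep v n 96 ((y : ℤ) - (m * off n : ℕ)) Y (m * 2 ^ 15)) ∧ k x y m = true
  | 0, _, _, _, _, _, h => by simp [grp2] at h
  | _ + 1, 0, x, y, m, hy, h => ⟨x, y, m, hy, h⟩
  | f + 1, g + 1, x, y, m, ⟨X, Y, h0, hX, hY⟩, h => by
    have e : grp2 (96 * n) T c (f + 1) (g + 1) x y m k = grp2 (96 * n) T c f ((g + 1) >>> 40)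
        (x + mulr (g + 1) * look (96 * n) T (2 * ((g + 1) % 256 % c)))
        (y + mulr (g + 1) * look (96 * n) T (2 * ((g + 1) % 256 % c) + 1))
        (m + mulr (g + 1)) k := by
      simp only [grp2, frc_eq]; rfl
    rw [e, look_eq, look_eq] at h
    obtain ⟨fx, fy, h1, h2, h3⟩ := hT _ (Nat.mod_lt ((g + 1) % 256) hc)
    refine grp2_sound hc hT k f _ _ _ _ ⟨_, _, ?_, step hX h1 _, step hY h2 _⟩ h
    have := mul_le_mul_of_nonneg_left h3 (Nat.cast_nonneg (α := ℝ) (mulr (g + 1)))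
    push_cast
    linarith

theorem zero_rep : LRep v n 96 (((0 : ℕ) : ℤ) - (0 * off n : ℕ)) 0 (0 * 2 ^ 15) :=
  LRep.zero.cast (by simp) rfl (by simp)

theorem prods_sound {T c B : ℕ} {G : ℝ} (hT : CtxU v n T c) (hc : 0 < c) (k : ℤ → ℕ → Bool) :
    ∀ (gs : List ℕ) (H : List ℤ) (Q : ℤ) (M : ℕ), CtxH v n H → Acc v n G B Q M →
      prods (96 * n) (off n) T c gs H Q M k = true → ∃ Q M, Acc v n G B Q M ∧ k Q M = true := by
  intro gs
  induction gs with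
  | nil => exact fun _ Q M _ hA h => ⟨Q, M, hA, h⟩
  | cons g gs ih =>
    rintro (_ | ⟨a, H⟩) Q M hH ⟨x, hx, hQ⟩ h
    · simp [prods] at h
    rcases g with _ | g
    · exact ih H Q M (fun a ha => hH a (List.mem_cons_of_mem _ ha)) ⟨x, hx, hQ⟩ h
    have e : prods (96 * n) (off n) T c ((g + 1) :: gs) (a :: H) Q M k =
        grp (96 * n) T c 256 (g + 1) 0 0 fun u m =>
          prods (96 * n) (off n) T c gs H (Q - a * Int.subNatNat u (m * off n)) (M + m) k := by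
      simp only [prods, frc_eq, frcI_eq]; rfl
    rw [e] at h
    obtain ⟨u, m, ⟨y, hy, hr⟩, h⟩ := grp_sound hT hc _ _ _ _ _ ⟨0, le_rfl, zero_rep⟩ h
    obtain ⟨z, hz, ha⟩ := hH a List.mem_cons_self
    refine ih H _ _ (fun a ha => hH a (List.mem_cons_of_mem _ ha))
      ⟨x - z * y, by linarith [mul_nonneg hz hy], ?_⟩ h
    exact (hQ.sub (ha.mul hr)).cast (by rw [Int.subNatNat_eq_coe]) rfl (by omega)

theorem dets_sound {B : ℕ} {G : ℝ} (hn : 0 < n) (h0 : v 0 = 1) (k : ℤ → ℕ → Bool) :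
    ∀ (gs : List ℕ) (E : List Ent) (Q : ℤ) (M : ℕ), (∀ e ∈ E, EntOk v n e) → Acc v n G B Q M →
      dets (96 * n) (off n) gs E Q M k = true → ∃ Q M, Acc v n G B Q M ∧ k Q M = true := by
  intro gs
  induction gs with
  | nil => exact fun _ Q M _ hA h => ⟨Q, M, hA, h⟩
  | cons g gs ih =>
    rintro (_ | ⟨⟨hx, hy, T, c, κ⟩, E⟩) Q M hE ⟨x, hx', hQ⟩ h
    · simp [dets] at h
    rcases g with _ | g
    · exact ih E Q M (fun a ha => hE a (List.mem_cons_of_mem _ ha)) ⟨x, hx', hQ⟩ h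
    have e : dets (96 * n) (off n) ((g + 1) :: gs) (⟨hx, hy, T, c, κ⟩ :: E) Q M k =
        grp2 (96 * n) T c 256 (g + 1) 0 0 0 fun x y m =>
          dets (96 * n) (off n) gs E (Q - hx * Int.subNatNat y (m * off n) +
            hy * Int.subNatNat x (m * off n) + (m * κ : ℕ)) (M + m) k := by
      simp only [dets, frc_eq, frcI_eq]; rfl
    rw [e] at h
    obtain ⟨hc, hκ, ex, ey, h1, h2, h3⟩ := hE _ List.mem_cons_self
    obtain ⟨a, b, m, ⟨X, Y, h4, hX, hY⟩, h⟩ :=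
      grp2_sound hc h3 _ _ _ _ _ _ ⟨0, 0, by simp, zero_rep, zero_rep⟩ h
    refine ih E _ _ (fun a ha => hE a (List.mem_cons_of_mem _ ha))
      ⟨x - ex * Y + ey * X + (m * κ : ℕ), by push_cast; linarith, ?_⟩ h
    have h5 : m * κ ≤ m * 2 ^ 30 := Nat.mul_le_mul_left _ hκ
    exact (((hQ.sub (h1.mul hY)).add (h2.mul hX)).add (QRep.const hn h0 _)).cast
      (by rw [Int.subNatNat_eq_coe, Int.subNatNat_eq_coe]) rfl (by omega)

theorem sqs_sound {B : ℕ} {G : ℝ} (k : ℕ → ℤ → Bool) (hk : ∀ m Q, k m Q = true → m ≤ n) :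
    ∀ (ls : List ℕ) (m : ℕ) (Q : ℤ), sqs (96 * n) ls m Q k = true →
      m ≤ n ∧ ((∃ x, x ≤ G ∧ QRep v n Q x (B + m * 2 ^ 62)) →
        ∃ m Q, (∃ x, x ≤ G ∧ QRep v n Q x (B + m * 2 ^ 62)) ∧ k m Q = true)
  | [], m, Q, h => ⟨hk m Q h, fun hA => ⟨m, Q, hA, h⟩⟩
  | a :: ls, m, Q, h => by
    have e : sqs (96 * n) (a :: ls) m Q k = sqs (96 * n) ls (m + 1)
        (Q - pk 32 (96 * n) (m + 1) a * pk 32 96 (m + 1) a) k := by
      simp only [sqs, frc_eq, frcI_eq]; rfl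
    rw [e] at h
    obtain ⟨h1, h2⟩ := sqs_sound (B := B) (G := G) k hk ls _ _ h
    refine ⟨by omega, fun ⟨x, hx, hQ⟩ => h2 ⟨x - val v (m + 1) 32 a * val v (m + 1) 32 a,
      by linarith [mul_self_nonneg (val v (m + 1) 32 a)], ?_⟩⟩
    exact (hQ.sub ((pk_rep (by norm_num) h1 a).mul (pk_rep (by norm_num) h1 a))).cast rfl rfl
      (by omega)

theorem leaf_sound {T c τ B : ℕ} {G : ℝ} {Q : ℤ} {E : List Ent} {H : List ℤ} (hn : 0 < n)
    (hn' : n ≤ 2 ^ 30) (h0 : v 0 = 1) (hB : B ≤ 2 ^ 93) (hQ : QRep v n Q G B)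
    (hE : ∀ e ∈ E, EntOk v n e) (hT : CtxU v n T c) (hc : 0 < c) (hH : CtxH v n H)
    {gs ds ls : List ℕ}
    (h : leafOk n (96 * n) (off n) (ones (96 * n) n * (ones 96 n <<< 95)) τ Q E T c H gs ds ls
      = true) : 0 ≤ G := by
  obtain ⟨Q1, M1, h1, h⟩ := prods_sound (B := B) (G := G) hT hc _ gs H Q 0 hH
    ⟨G, le_rfl, hQ.cast rfl rfl (by omega)⟩ h
  obtain ⟨Q2, M2, ⟨x, hx, h2⟩, h⟩ := dets_sound hn h0 _ ds E Q1 M1 hE h1 h
  obtain ⟨m, Q3, ⟨y, hy, h3⟩, h⟩ := (sqs_sound (v := v) (B := B + M2 * 2 ^ 32) (G := G) _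
    (fun m Q h => Nat.le_of_ble_eq_true ((band_eq _ _).1 h).1) ls 0 Q2 h).2
    ⟨x, hx, h2.cast rfl rfl (by omega)⟩
  rw [band_eq, band_eq, frc_eq] at h
  have h4 := Nat.le_of_ble_eq_true h.1
  have h5 := Nat.le_of_ble_eq_true h.2.1
  exact (dom_sound h3 (by omega) τ h.2.2).trans hy

theorem hor_rep (a : ℕ) :
    LRep v n 96 ((hor 16 96 n a : ℤ) - off n) (val v n 16 a) (2 ^ 15) :=
  (pk_rep (by norm_num) le_rfl a).cast (pk_eq _ _ _ _) rfl le_rfl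

theorem hor_le (n a : ℕ) : hor 16 96 n a ≤ 2 * off n := by
  rw [hor_eq, off, ones_eq, sum_mul, mul_sum]
  refine sum_le_sum fun i _ => ?_
  have := Nat.mul_le_mul_right (2 ^ (96 * i)) (dg_lt 16 a i).le
  omega

theorem off_lt (n : ℕ) : 2 * off n < 2 ^ (96 * n) := by
  rw [off, ones_eq, sum_mul, mul_sum]
  refine lt_of_eq_of_lt (sum_congr rfl fun i _ => ?_)
    (sum_lt 96 n (fun _ => 2 ^ 16) fun _ _ => by norm_num)
  ring

theorem CtxU.cons {T c u : ℕ} {x : ℝ} (h : CtxU v n T c) (hu : u ≤ 2 * off n) (hx : 0 ≤ x)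
    (hr : LRep v n 96 ((u : ℤ) - off n) x (2 ^ 15)) :
    CtxU v n (u + T <<< (96 * n)) (c + 1) := by
  have h1 := hu.trans_lt (off_lt n)
  rw [Nat.shiftLeft_eq]
  rintro (_ | j) hj
  · rw [dg_cons_zero _ h1]
    exact ⟨x, hx, hr⟩
  · rw [dg_cons_succ _ _ h1]
    exact h j (by omega)

theorem CtxU.pos {T c : ℕ} (h : CtxU v n T c) (a : ℕ) (ha : 0 ≤ val v n 16 a) :
    CtxU v n (hor 16 96 n a + T <<< (96 * n)) (c + 1) :=
  h.cons (hor_le n a) ha (hor_rep a)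

theorem CtxU.neg {T c : ℕ} (h : CtxU v n T c) (a : ℕ) (ha : 0 ≤ -val v n 16 a) :
    CtxU v n (2 * off n - hor 16 96 n a + T <<< (96 * n)) (c + 1) :=
  h.cons (Nat.sub_le _ _) ha ((hor_rep a).neg.cast
    (by rw [Nat.cast_sub (hor_le n a)]; push_cast; ring) rfl le_rfl)

theorem CtxH.pos {H : List ℤ} (h : CtxH v n H) (a : ℕ) (ha : 0 ≤ val v n 16 a) :
    CtxH v n (pk 16 (96 * n) n a :: H) :=
  List.forall_mem_cons.2 ⟨⟨_, ha, pk_rep (by norm_num) le_rfl a⟩, h⟩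

theorem CtxH.neg {H : List ℤ} (h : CtxH v n H) (a : ℕ) (ha : 0 ≤ -val v n 16 a) :
    CtxH v n (-pk 16 (96 * n) n a :: H) :=
  List.forall_mem_cons.2 ⟨⟨_, ha, (pk_rep (by norm_num) le_rfl a).neg⟩, h⟩

theorem tree_sound {τ B : ℕ} {G : ℝ} {Q : ℤ} {E : List Ent} (hn : 0 < n)
    (hn' : n ≤ 2 ^ 30) (h0 : v 0 = 1) (hB : B ≤ 2 ^ 93) (hQ : QRep v n Q G B)
    (hE : ∀ e ∈ E, EntOk v n e) : ∀ (t : Tr) (T c : ℕ) (H : List ℤ), CtxU v n T c → 0 < c →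
      CtxH v n H →
      treeOk n (96 * n) (off n) (ones (96 * n) n * (ones 96 n <<< 95)) τ Q E t T c H = true →
      0 ≤ G
  | .leaf _ _ _, _, _, _, hT, hc, hH, h => leaf_sound hn hn' h0 hB hQ hE hT hc hH h
  | .cut a t1 t2, T, c, H, hT, _, hH, h => by
    have e : ∀ HI, treeOk n (96 * n) (off n) HI τ Q E (.cut a t1 t2) T c H =
        band (treeOk n (96 * n) (off n) HI τ Q E t1 (hor 16 96 n a + T <<< (96 * n)) (c + 1)
          (pk 16 (96 * n) n a :: H))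
        (treeOk n (96 * n) (off n) HI τ Q E t2 (2 * off n - hor 16 96 n a + T <<< (96 * n))
          (c + 1) (-pk 16 (96 * n) n a :: H)) := fun HI => by
      simp only [treeOk, frc_eq, frcI_eq]; rfl
    rw [e, band_eq] at h
    rcases le_total 0 (val v n 16 a) with ha | ha
    · exact tree_sound hn hn' h0 hB hQ hE t1 _ _ _ (hT.pos a ha) c.succ_pos (hH.pos a ha) h.1
    · have ha' := neg_nonneg.2 ha
      exact tree_sound hn hn' h0 hB hQ hE t2 _ _ _ (hT.neg a ha') c.succ_pos (hH.neg a ha') h.2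

/-- a signed linear constraint holds -/
def Pos (v : ℕ → ℝ) (n : ℕ) (a : Bool × ℕ) : Prop :=
  0 ≤ if a.1 then -val v n 16 a.2 else val v n 16 a.2

/-- the determinant of two coded vectors -/
noncomputable def dt (v : ℕ → ℝ) (n : ℕ) (e f : ℕ × ℕ) : ℝ :=
  val v n 16 e.1 * val v n 16 f.2 - val v n 16 e.2 * val v n 16 f.1

theorem mkCtx_sound : ∀ (bs : List (Bool × ℕ)) (k : ℕ → ℕ → List ℤ → Bool),
    (∀ a ∈ bs, Pos v n a) → mkCtx n (96 * n) (off n) bs k = true →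
    ∃ T H, CtxU v n T bs.length ∧ CtxH v n H ∧ k T bs.length H = true
  | [], _, _, h => ⟨0, [], fun _ hj => absurd hj (by simp), fun _ ha => absurd ha (by simp), h⟩
  | (false, a) :: bs, k, hb, h => by
    obtain ⟨T, H, hT, hH, h⟩ :=
      mkCtx_sound bs _ (fun a ha => hb a (List.mem_cons_of_mem _ ha)) h
    simp only [frc_eq, frcI_eq] at h
    have ha : 0 ≤ val v n 16 a := hb _ List.mem_cons_self
    exact ⟨_, _, hT.pos a ha, hH.pos a ha, h⟩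
  | (true, a) :: bs, k, hb, h => by
    obtain ⟨T, H, hT, hH, h⟩ :=
      mkCtx_sound bs _ (fun a ha => hb a (List.mem_cons_of_mem _ ha)) h
    simp only [frc_eq, frcI_eq] at h
    have ha : 0 ≤ -val v n 16 a := hb _ List.mem_cons_self
    exact ⟨_, _, hT.neg a ha, hH.neg a ha, h⟩

theorem tab0 (T : ℕ) (a : ℕ × ℕ) :
    LRep v n 96 ((dg (96 * n) (hor 16 96 n a.1 + (hor 16 96 n a.2 + T <<< (96 * n)) <<< (96 * n))
      (2 * 0) : ℤ) - off n) (val v n 16 a.1) (2 ^ 15) ∧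
    LRep v n 96 ((dg (96 * n) (hor 16 96 n a.1 + (hor 16 96 n a.2 + T <<< (96 * n)) <<< (96 * n))
      (2 * 0 + 1) : ℤ) - off n) (val v n 16 a.2) (2 ^ 15) := by
  have h1 := fun a => (hor_le n a).trans_lt (off_lt n)
  rw [Nat.shiftLeft_eq, Nat.shiftLeft_eq, mul_zero, dg_cons_succ _ _ (h1 _),
    dg_cons_zero _ (h1 _), dg_cons_zero _ (h1 _)]
  exact ⟨hor_rep _, hor_rep _⟩

theorem mkE_sound : ∀ (es : List (ℕ × ℕ)) (k : ℕ → ℕ → List Ent → Bool),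
    es.Pairwise (fun e f => 0 ≤ dt v n e f) → mkE n (96 * n) es k = true →
    ∃ T E, (∀ j < es.length, ∃ f ∈ es,
        LRep v n 96 ((dg (96 * n) T (2 * j) : ℤ) - off n) (val v n 16 f.1) (2 ^ 15) ∧
        LRep v n 96 ((dg (96 * n) T (2 * j + 1) : ℤ) - off n) (val v n 16 f.2) (2 ^ 15)) ∧
      (∀ e ∈ E, EntOk v n e) ∧ k T es.length E = true
  | [], _, _, h => ⟨0, [], fun _ hj => absurd hj (by simp), fun _ ha => absurd ha (by simp), h⟩
  | a :: es, k, hp, h => by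
    obtain ⟨h1, h2⟩ := List.pairwise_cons.1 hp
    obtain ⟨T, E, hT, hE, h⟩ := mkE_sound es _ h2 h
    simp only [frc_eq, frcI_eq] at h
    have hT' : ∀ j < (a :: es).length, ∃ f ∈ a :: es,
        LRep v n 96 ((dg (96 * n) (hor 16 96 n a.1 + (hor 16 96 n a.2 + T <<< (96 * n))
          <<< (96 * n)) (2 * j) : ℤ) - off n) (val v n 16 f.1) (2 ^ 15) ∧
        LRep v n 96 ((dg (96 * n) (hor 16 96 n a.1 + (hor 16 96 n a.2 + T <<< (96 * n))
          <<< (96 * n)) (2 * j + 1) : ℤ) - off n) (val v n 16 f.2) (2 ^ 15) := by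
      rintro (_ | j) hj
      · exact ⟨a, List.mem_cons_self, tab0 T a⟩
      · obtain ⟨f, hf, h3⟩ := hT j (by simpa using hj)
        have h4 := fun a => (hor_le n a).trans_lt (off_lt n)
        refine ⟨f, List.mem_cons_of_mem _ hf, ?_⟩
        rw [Nat.shiftLeft_eq, Nat.shiftLeft_eq, show 2 * (j + 1) = 2 * j + 1 + 1 by ring,
          dg_cons_succ _ _ (h4 _), dg_cons_succ _ _ (h4 _), dg_cons_succ _ _ (h4 _),
          dg_cons_succ _ _ (h4 _)]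
        exact h3
    rcases hl : es.length with _ | c
    · rw [hl] at h
      exact ⟨_, E, hT', hE, by rw [List.length_cons, hl]; exact h⟩
    · refine ⟨_, ⟨_, _, T, es.length, 0⟩ :: E, hT', List.forall_mem_cons.2 ⟨⟨?_, by simp, _, _,
        pk_rep (w := 16) (by norm_num) le_rfl a.1, pk_rep (w := 16) (by norm_num) le_rfl a.2,
        fun j hj => ?_⟩, hE⟩,
        by rw [hl] at h; rw [List.length_cons, hl]; exact h⟩
      · simp [hl]
      · obtain ⟨f, hf, h3⟩ := hT j hj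
        exact ⟨_, _, h3.1, h3.2, by simpa [dt] using h1 f hf⟩

theorem mkH_sound {κ : ℕ} (hκ : κ ≤ 2 ^ 30) {E : List Ent} (hE : ∀ e ∈ E, EntOk v n e) :
    ∀ (hs : List ((ℕ × ℕ) × ℕ × ℕ)) (k : List Ent → Bool),
    (∀ a ∈ hs, (κ : ℝ) ≤ dt v n a.1 a.2) → mkH n (96 * n) κ hs E k = true →
    ∃ E, (∀ e ∈ E, EntOk v n e) ∧ k E = true
  | [], _, _, h => ⟨E, hE, h⟩
  | a :: hs, k, hp, h => by
    obtain ⟨E', hE', h⟩ :=
      mkH_sound hκ hE hs _ (fun a ha => hp a (List.mem_cons_of_mem _ ha)) h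
    simp only [frc_eq, frcI_eq] at h
    refine ⟨_, List.forall_mem_cons.2 ⟨⟨one_pos, hκ, _, _, pk_rep (by norm_num) le_rfl a.1.1,
      pk_rep (by norm_num) le_rfl a.1.2, fun j hj => ?_⟩, hE'⟩, h⟩
    obtain rfl : j = 0 := Nat.lt_one_iff.1 hj
    have h3 := tab0 (v := v) (n := n) 0 a.2
    rw [Nat.zero_shiftLeft, add_zero] at h3
    exact ⟨_, _, h3.1, h3.2, hp a List.mem_cons_self⟩

theorem mkF_sound : ∀ fs : List ((ℕ × ℕ) × ℕ × ℕ), QRep v n (mkF n (96 * n) fs)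
    (fs.map fun a => dt v n a.1 a.2).sum (fs.length * 2 ^ 31)
  | [] => QRep.zero.cast rfl (by simp) (by simp)
  | a :: fs => ((mkF_sound fs).add
      (((pk_rep (by norm_num) le_rfl a.1.1).mul (pk_rep (w := 16) (by norm_num) le_rfl a.2.2)).sub
        ((pk_rep (by norm_num) le_rfl a.1.2).mul
          (pk_rep (w := 16) (by norm_num) le_rfl a.2.1)))).cast rfl
      (by simp [dt, add_comm]) (by simp only [List.length_cons]; omega)

theorem run_sound {τ κ p q : ℕ} {es : List (ℕ × ℕ)} {hs fs : List ((ℕ × ℕ) × ℕ × ℕ)}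
    {bs : List (Bool × ℕ)} {t : Tr} (h : run n τ κ p q es hs fs bs t = true) (hn : 0 < n)
    (hn' : n ≤ 2 ^ 30) (hκ : κ ≤ 2 ^ 30) (hB : p * (fs.length * 2 ^ 31) + q ≤ 2 ^ 93)
    (hb0 : 0 < bs.length) (h0 : v 0 = 1) (he : es.Pairwise fun e f => 0 ≤ dt v n e f)
    (hh : ∀ a ∈ hs, (κ : ℝ) ≤ dt v n a.1 a.2) (hb : ∀ a ∈ bs, Pos v n a) :
    (q : ℝ) ≤ p * (fs.map fun a => dt v n a.1 a.2).sum := by
  have e : run n τ κ p q es hs fs bs t = mkE n (96 * n) es fun _ _ E =>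
      mkH n (96 * n) κ hs E fun E' => mkCtx n (96 * n) (off n) bs fun T c H =>
        treeOk n (96 * n) (off n) (ones (96 * n) n * (ones 96 n <<< 95)) τ
          (p * mkF n (96 * n) fs - q) E' t T c H := by
    simp only [run, frc_eq, frcI_eq, off, ← Nat.shiftLeft_eq]; rfl
  rw [e] at h
  obtain ⟨_, E, -, hE, h⟩ := mkE_sound es _ he h
  obtain ⟨E', hE', h⟩ := mkH_sound hκ hE hs _ hh h
  obtain ⟨T, H, hT, hH, h⟩ := mkCtx_sound bs _ hb h
  have hQ := (QRep.zero.add_mul (mkF_sound (v := v) (n := n) fs) p).sub (QRep.const hn h0 q)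
  have := tree_sound hn hn' h0 hB (hQ.cast (by ring) rfl (by simp)) hE' t T _ H hT hb0 hH h
  push_cast at this
  linarith

end Pool.Agent.MP_5c967c_co.H44
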